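import Pool.Agent.H990R2.Ent.Conv

open Finset Filter Topology

namespace Pool.Agent.H990R2.Ent

open Pool.Agent.H990R2.CT

noncomputable section

theorem exp_65_lb : (3.26 : ℝ) ≤ Real.exp (6 / 5) := by
  have h1 := Real.exp_one_gt_d9
  have h2 : (6 / 5 : ℝ) ≤ Real.exp (1 / 5) := by
    have := Real.add_one_le_exp (1 / 5 : ℝ)
    linarith
  have h3 : Real.exp (6 / 5) = Real.exp 1 * Real.exp (1 / 5) := by
    rw [← Real.exp_add]; norm_num
  rw [h3]
  nlinarith [Real.exp_pos 1, Real.exp_pos (1 / 5)]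

theorem exp_two_ub : Real.exp 2 < 7.4 := by
  have h1 := Real.exp_one_lt_d9
  have h3 : Real.exp 2 = Real.exp 1 * Real.exp 1 := by
    rw [← Real.exp_add]; norm_num
  rw [h3]
  nlinarith [Real.exp_pos 1]

/-- first geometric rate -/
def a1 : ℝ := Real.exp (-(6 / 5)) * (5 / 4) ^ 5
def a2 : ℝ := Real.exp (15 / 8) / (5 / 4) ^ 9
def a3 : ℝ := Real.exp (15 / 8) * (5 / 4) / 16

theorem a1_pos : 0 < a1 := by rw [a1]; positivity
theorem a2_pos : 0 < a2 := by rw [a2]; positivity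
theorem a3_pos : 0 < a3 := by rw [a3]; positivity

theorem a1_lt : a1 < 1 := by
  rw [a1, Real.exp_neg, inv_mul_lt_iff₀ (Real.exp_pos _), mul_one]
  have := exp_65_lb
  norm_num at this ⊢
  linarith

theorem exp_158 : Real.exp (15 / 8) < 7.4 :=
  (Real.exp_le_exp.mpr (by norm_num)).trans_lt exp_two_ub

theorem a2_lt : a2 < 1 := by
  rw [a2, div_lt_one (by positivity)]
  have := exp_158
  norm_num at this ⊢
  linarith

theorem a3_lt : a3 < 1 := by
  rw [a3, div_lt_one (by positivity)]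
  have := exp_158
  norm_num at this ⊢
  linarith

theorem tends (a : ℝ) (ha0 : 0 < a) (ha : a < 1) (m : ℕ) :
    Tendsto (fun n : ℕ => (n : ℝ) ^ m * a ^ n) atTop (𝓝 0) :=
  tendsto_pow_const_mul_const_pow_of_abs_lt_one m (by rw [abs_of_pos ha0]; exact ha)

theorem twelve_le (K : ℕ) (hK : 1 ≤ K) : 12 * (K : ℝ) / rr K ≤ 1 := by
  rw [div_le_one (rr_pos K), rr]
  induction K, hK using Nat.le_induction with
  | base => norm_num
  | succ K hK ih =>
    push_cast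
    have e : (16 : ℝ) ^ (K + 1) = 16 ^ K * 16 := pow_succ _ _
    have h : (1 : ℝ) ≤ K := by exact_mod_cast hK
    rw [e]
    linarith

theorem Tup_le (K : ℕ) (hK : 1 ≤ K) :
    Tup K ≤ Real.exp 1 * (5 / 4) * a1 ^ K + 30 * (1 / 16) ^ K := by
  rw [Tup]
  have h1 : Real.exp ((9 / 10 + 1 / rr K - 1) * (12 * K)) ≤
      Real.exp 1 * (Real.exp (-(6 / 5))) ^ K := by
    rw [← Real.exp_nat_mul, ← Real.exp_add]
    apply Real.exp_le_exp.mpr
    have := twelve_le K hK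
    have e : (9 / 10 + 1 / rr K - 1) * (12 * K) = 12 * (K : ℝ) / rr K + K * -(6 / 5) := by ring
    rw [e]
    linarith
  have h2 : 30 / rr K = 30 * (1 / 16) ^ K := by
    rw [rr, one_div, inv_pow]; rfl
  have h3 : (5 / 4 : ℝ) ^ (5 * K + 1) = (5 / 4) * ((5 / 4) ^ 5) ^ K := by
    rw [pow_succ, pow_mul]; ring
  have h4 : a1 ^ K = (Real.exp (-(6 / 5))) ^ K * ((5 / 4) ^ 5) ^ K := by
    rw [a1, mul_pow]
  rw [h2, h3, h4]
  have h5 : (0 : ℝ) < (5 / 4) * ((5 / 4) ^ 5) ^ K := by positivity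
  nlinarith

theorem Tup_ev : ∀ᶠ K : ℕ in atTop, Tup K ≤ qq K := by
  have h1 := (tends a1 a1_pos a1_lt 2).const_mul (Real.exp 1 * (5 / 4))
  have h2 := (tends (1 / 16) (by norm_num) (by norm_num) 2).const_mul (30 : ℝ)
  have h3 := h1.add h2
  rw [mul_zero, mul_zero, add_zero] at h3
  filter_upwards [h3.eventually (gt_mem_nhds (show (0 : ℝ) < 1 by norm_num)),
    eventually_ge_atTop 1] with K hK hK1
  have h := Tup_le K hK1
  have hKp : (0 : ℝ) < K := by exact_mod_cast hK1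
  rw [qq, le_div_iff₀ (by positivity)]
  have := mul_le_mul_of_nonneg_right h (show (0 : ℝ) ≤ (K : ℝ) ^ 2 by positivity)
  refine this.trans ?_
  linarith

theorem notend_ev : ∀ᶠ K : ℕ in atTop, ∀ x : Fin (10 * K + 1),
    ∑ y ∈ univ.erase (Fin.last (10 * K)), H (PP K) (12 * K) x y ≤ 17 * qq K := by
  filter_upwards [Tup_ev, eventually_ge_atTop 1] with K hK hK1 x
  have h := not_end K hK1 x
  have hq := qq_pos K hK1
  have h1 : (K : ℝ) ^ 2 / rr K * (12 * K) ≤ 2 := by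
    have := ten_cube K hK1
    rw [div_mul_eq_mul_div, div_le_iff₀ (rr_pos K)]
    nlinarith [rr_pos K]
  have h2 : Real.exp ((K : ℝ) ^ 2 / rr K * (12 * K)) ≤ 8 :=
    ((Real.exp_le_exp.mpr h1).trans exp_two_ub.le).trans (by norm_num)
  nlinarith

theorem EE_eq (K : ℕ) : EE K * Real.exp (15 * K / 8) = 16 * a3 ^ K := by
  have e : (16 : ℝ) ^ K ≠ 0 := by positivity
  rw [EE, a3, rr, show (15 * (K : ℝ) / 8) = K * (15 / 8) by ring, Real.exp_nat_mul]
  generalize Real.exp (15 / 8) = u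
  rw [div_pow (u * (5 / 4)) 16, mul_pow u (5 / 4)]
  field_simp

theorem low_ev : ∀ᶠ K : ℕ in atTop, ∀ t : ℝ, 0 ≤ t → t ≤ 15 * K → qq K / 2 ≤
    ∑ y ∈ univ.filter (fun y : Fin (10 * K + 1) => (y : ℕ) ≤ 9 * K), H (PP K) t 0 y := by
  have h1 := tends a2 a2_pos a2_lt 0
  have h2 := (tends a3 a3_pos a3_lt 2).const_mul (16 : ℝ)
  have h3 := h1.add h2
  rw [mul_zero, add_zero] at h3
  filter_upwards [h3.eventually (gt_mem_nhds (show (0 : ℝ) < 1 / 2 by norm_num)),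
    eventually_ge_atTop 1] with K hK hK1 t ht0 ht
  have h := low K hK1 ht0
  refine le_trans ?_ h
  have hq := qq_pos K hK1
  have hE : 0 ≤ EE K := by
    rw [EE]; have := rr_pos K; positivity
  have e1 : (qq K * (1 / (5 / 4) ^ (9 * K)) + EE K) * Real.exp (t / 8) ≤
      (qq K * (1 / (5 / 4) ^ (9 * K)) + EE K) * Real.exp (15 * K / 8) := by
    gcongr
  have e2 : (1 / (5 / 4 : ℝ) ^ (9 * K)) * Real.exp (15 * K / 8) = a2 ^ K := by
    rw [a2, show (15 * (K : ℝ) / 8) = K * (15 / 8) by ring, Real.exp_nat_mul]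
    generalize Real.exp (15 / 8) = u
    rw [div_pow u, pow_mul]
    field_simp
  have e3 : (qq K * (1 / (5 / 4) ^ (9 * K)) + EE K) * Real.exp (15 * K / 8) =
      qq K * (a2 ^ K + 16 * ((K : ℝ) ^ 2 * a3 ^ K)) := by
    rw [add_mul, mul_assoc, e2, EE_eq]
    have := inv_q K hK1
    calc qq K * a2 ^ K + 16 * a3 ^ K = qq K * a2 ^ K + 16 * (((K : ℝ) ^ 2 * qq K) * a3 ^ K) := by
          rw [this, one_mul]
      _ = _ := by ring
  rw [pow_zero, one_mul] at hK
  nlinarith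

theorem pp_low (K : ℕ) (hK : 1 ≤ K) (y : Fin (10 * K + 1)) (hy : (y : ℕ) ≤ 9 * K) :
    rr K ^ (K - 1) * pp K y ≤ (K : ℝ) ^ 2 / rr K := by
  have hr := rr_pos K
  have h1 := ww_le K hK y (9 * K) hy
  have h2 := ZZ_ge K hK
  have h3 : pp K y ≤ (K : ℝ) ^ 2 * rr K ^ (9 * K) / rr K ^ (10 * K) := by
    rw [pp]
    gcongr
  have h4 : rr K ^ (10 * K) = rr K ^ (9 * K) * (rr K ^ (K - 1) * rr K) := by
    rw [← pow_succ, ← pow_add]; congr 1; omega
  calc rr K ^ (K - 1) * pp K y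
      ≤ rr K ^ (K - 1) * ((K : ℝ) ^ 2 * rr K ^ (9 * K) / rr K ^ (10 * K)) := by gcongr
    _ = (K : ℝ) ^ 2 / rr K := by
        rw [h4]; field_simp

theorem pp_low_sum (K : ℕ) (hK : 1 ≤ K) :
    rr K ^ (K - 1) * ∑ y ∈ univ.filter (fun y : Fin (10 * K + 1) => (y : ℕ) ≤ 9 * K), pp K y ≤
      11 * ((K : ℝ) ^ 3 / rr K) := by
  have hr := rr_pos K
  have hKp : (1 : ℝ) ≤ K := by exact_mod_cast hK
  rw [Finset.mul_sum]
  calc _ ≤ ∑ y ∈ univ.filter (fun y : Fin (10 * K + 1) => (y : ℕ) ≤ 9 * K), (K : ℝ) ^ 2 / rr K :=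
        Finset.sum_le_sum fun y hy => pp_low K hK y (Finset.mem_filter.mp hy).2
    _ ≤ ∑ _y : Fin (10 * K + 1), (K : ℝ) ^ 2 / rr K :=
        Finset.sum_le_sum_of_subset_of_nonneg (Finset.subset_univ _)
          fun _ _ _ => by positivity
    _ = (10 * K + 1) * ((K : ℝ) ^ 2 / rr K) := by
        rw [Finset.sum_const, Finset.card_univ, Fintype.card_fin, nsmul_eq_mul]; push_cast; ring
    _ ≤ (11 * K) * ((K : ℝ) ^ 2 / rr K) := by
        gcongr; linarith
    _ = _ := by ring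

theorem log_rr (K : ℕ) : Real.log (rr K) = K * Real.log 16 := by rw [rr, Real.log_pow]

theorem log16_lb : (2.77 : ℝ) < Real.log 16 := by
  have : (16 : ℝ) = 2 ^ 4 := by norm_num
  rw [this, Real.log_pow]
  have := Real.log_two_gt_d9
  push_cast
  linarith

theorem log16_ub : Real.log 16 < 2.78 := by
  have : (16 : ℝ) = 2 ^ 4 := by norm_num
  rw [this, Real.log_pow]
  have := Real.log_two_lt_d9
  push_cast
  linarith

/-- entropy from `0` is larger than one up to time `15 K` -/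
theorem ent_low_ev : ∀ᶠ K : ℕ in atTop, ∀ t : ℝ, 0 ≤ t → t ≤ 15 * K →
    1 < ent (PP K) (pp K) t 0 := by
  have h1 := (tends (1 / 16) (by norm_num) (by norm_num) 3).const_mul (11 : ℝ)
  rw [mul_zero] at h1
  filter_upwards [low_ev, h1.eventually (gt_mem_nhds (show (0 : ℝ) < 1 / 100 by norm_num)),
    eventually_ge_atTop 5] with K hlow hK hK5 t ht0 ht
  have hK1 : 1 ≤ K := by omega
  have hK5' : (5 : ℝ) ≤ K := by exact_mod_cast hK5
  have hr1 : 1 ≤ rr K ^ (K - 1) := one_le_rpow K hK1 _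
  have h := ent_lower (PP_nonneg K hK1) (PP_row K) (pp_pos K hK1) (pp_sum K hK1) ht0 0
    (univ.filter (fun y : Fin (10 * K + 1) => (y : ℕ) ≤ 9 * K)) hr1
  refine lt_of_lt_of_le ?_ h
  have e1 := hlow t ht0 ht
  have e2 := pp_low_sum K hK1
  have e3 : Real.log (rr K ^ (K - 1)) = ((K : ℝ) - 1) * (K * Real.log 16) := by
    rw [Real.log_pow, log_rr, Nat.cast_sub hK1, Nat.cast_one]
  have e4 : (K : ℝ) ^ 3 / rr K = (K : ℝ) ^ 3 * (1 / 16) ^ K := by
    rw [rr, one_div, inv_pow]; rfl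
  rw [e4] at e2
  have e5 := log16_lb
  have e6 : 0 ≤ Real.log (rr K ^ (K - 1)) := Real.log_nonneg hr1
  have e7 : qq K / 2 * Real.log (rr K ^ (K - 1)) ≤
      (∑ y ∈ univ.filter (fun y : Fin (10 * K + 1) => (y : ℕ) ≤ 9 * K), H (PP K) t 0 y) *
        Real.log (rr K ^ (K - 1)) := mul_le_mul_of_nonneg_right e1 e6
  have e8 : (1.1 : ℝ) ≤ qq K / 2 * Real.log (rr K ^ (K - 1)) := by
    rw [e3, qq]
    have e9 : 1 / (K : ℝ) ^ 2 / 2 * (((K : ℝ) - 1) * (K * Real.log 16)) =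
        (Real.log 16 / 2) * (((K : ℝ) - 1) / K) := by
      have : (K : ℝ) ≠ 0 := by linarith
      field_simp
    rw [e9]
    have e10 : (4 / 5 : ℝ) ≤ ((K : ℝ) - 1) / K := by
      rw [le_div_iff₀ (by linarith)]; linarith
    nlinarith
  linarith

/-- the initial entropy tends to infinity -/
theorem ent_zero_lb (K : ℕ) (hK : 1 ≤ K) :
    ((K : ℝ) - 1) * (K * Real.log 16) - 11 * ((K : ℝ) ^ 3 / rr K) ≤
      ent (PP K) (pp K) 0 0 := by
  have hr1 : 1 ≤ rr K ^ (K - 1) := one_le_rpow K hK _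
  have h := ent_lower (PP_nonneg K hK) (PP_row K) (pp_pos K hK) (pp_sum K hK) le_rfl 0
    (univ.filter (fun y : Fin (10 * K + 1) => (y : ℕ) ≤ 9 * K)) hr1
  refine le_trans ?_ h
  have e2 := pp_low_sum K hK
  have e3 : Real.log (rr K ^ (K - 1)) = ((K : ℝ) - 1) * (K * Real.log 16) := by
    rw [Real.log_pow, log_rr, Nat.cast_sub hK, Nat.cast_one]
  have e4 : ∑ y ∈ univ.filter (fun y : Fin (10 * K + 1) => (y : ℕ) ≤ 9 * K),
      H (PP K) 0 0 y = 1 := by
    rw [H_zero]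
    simp only [Matrix.one_apply]
    rw [Finset.sum_ite_eq]
    simp
  rw [e4, one_mul, e3]
  linarith

theorem log_pp (K : ℕ) (hK : 1 ≤ K) (y : Fin (10 * K + 1)) :
    -Real.log (pp K y) ≤ 29 * (K : ℝ) ^ 2 := by
  have hK' : (1 : ℝ) ≤ K := by exact_mod_cast hK
  have h1 := ww_ge K hK y
  have h2 := ZZ_pos K hK
  have h3 := ZZ_le K hK
  have hr := rr_pos K
  rw [pp, Real.log_div (by linarith) h2.ne']
  have h4 : 0 ≤ Real.log (ww K y) := Real.log_nonneg h1
  have h5 : Real.log (ZZ K) ≤ Real.log (2 * rr K ^ (10 * K)) := Real.log_le_log h2 h3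
  rw [Real.log_mul (by norm_num) (by positivity), Real.log_pow, log_rr] at h5
  push_cast at h5
  have h6 := log16_ub
  have h7 := Real.log_two_lt_d9
  have h8 : 10 * (K : ℝ) * (K * Real.log 16) ≤ 27.8 * (K : ℝ) ^ 2 := by
    have : (0 : ℝ) ≤ (K : ℝ) ^ 2 := by positivity
    nlinarith
  have h9 : (1 : ℝ) ≤ (K : ℝ) ^ 2 := one_le_K2 K hK
  linarith

theorem log_pp_last (K : ℕ) (hK : 1 ≤ K) : -Real.log (pp K (Fin.last (10 * K))) ≤ 1 := by
  have h2 := ZZ_pos K hK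
  have h3 := ZZ_le K hK
  have hr := rr_pos K
  have hw := ww_last K hK
  rw [pp, Fin.val_last, hw, ← Real.log_inv, inv_div]
  have h4 : ZZ K / rr K ^ (10 * K) ≤ 2 := by
    rw [div_le_iff₀ (by positivity)]; exact h3
  have h5 := Real.log_le_log (by positivity) h4
  have := Real.log_two_lt_d9
  linarith

/-- the entropy is bounded from time `12 K` on -/
theorem ent_up_ev : ∀ᶠ K : ℕ in atTop, ∀ t : ℝ, 12 * K ≤ t → ∀ x : Fin (10 * K + 1),
    ent (PP K) (pp K) t x ≤ 500 := by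
  filter_upwards [notend_ev, eventually_ge_atTop 1] with K hne hK1 t ht x
  have h0 : (0 : ℝ) ≤ 12 * K := by positivity
  have h1 := ent_anti (PP_nonneg K hK1) (PP_row K) (pp_pos K hK1) (pp_st K hK1) h0
    (show 0 ≤ t - 12 * K by linarith) x
  rw [add_sub_cancel] at h1
  refine h1.trans ?_
  have h2 := ent_upper (PP_nonneg K hK1) (PP_row K) (pp_pos K hK1) h0 x (Fin.last (10 * K))
    (log_pp K hK1) (log_pp_last K hK1) zero_le_one (by positivity)
  refine h2.trans ?_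
  have h3 := mul_le_mul_of_nonneg_left (hne x) (show 0 ≤ 29 * (K : ℝ) ^ 2 by positivity)
  have h4 := inv_q K hK1
  have h5 : 29 * (K : ℝ) ^ 2 * (17 * qq K) = 493 := by
    calc 29 * (K : ℝ) ^ 2 * (17 * qq K) = 493 * ((K : ℝ) ^ 2 * qq K) := by ring
      _ = 493 := by rw [h4, mul_one]
  linarith

theorem irred' (K : ℕ) (hK : 1 ≤ K) (i j : Fin (10 * K + 1)) :
    Relation.ReflTransGen (fun a b => a ≠ b ∧ 0 < QQ K a b) i j := by
  have key : ∀ a b : Fin (10 * K + 1), 0 < QQ K a b →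
      Relation.ReflTransGen (fun a b => a ≠ b ∧ 0 < QQ K a b) a b := by
    intro a b h
    by_cases hab : a = b
    · rw [hab]
    · exact Relation.ReflTransGen.single ⟨hab, h⟩
  have h := irred K hK i j
  induction h with
  | refl => exact Relation.ReflTransGen.refl
  | tail _ h2 ih => exact ih.trans (key _ _ h2)

/-- convergence to equilibrium in entropy -/
theorem ent_conv_ev : ∀ᶠ K : ℕ in atTop, ∀ ε : ℝ, 0 < ε →
    ∃ t : ℝ, 0 ≤ t ∧ ∀ x : Fin (10 * K + 1), ent (PP K) (pp K) t x ≤ ε := by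
  filter_upwards [notend_ev, eventually_ge_atTop 6] with K hne hK6 ε hε
  have hK1 : 1 ≤ K := by omega
  have hK6' : (6 : ℝ) ≤ K := by exact_mod_cast hK6
  refine ent_tendsto (PP_nonneg K hK1) (PP_row K) (pp_pos K hK1) (pp_sum K hK1) (pp_st K hK1)
    (show (0 : ℝ) ≤ 12 * K by positivity) (c := 1 / 2) (by norm_num) (Fin.last (10 * K))
    (fun x => ?_) ε hε
  have h1 := hne x
  have h2 := H_row (PP_row K) (12 * K) x
  rw [← Finset.add_sum_erase univ _ (Finset.mem_univ (Fin.last (10 * K)))] at h2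
  have h3 : qq K ≤ 1 / 36 := by
    rw [qq]
    apply one_div_le_one_div_of_le (by norm_num)
    nlinarith
  linarith

end

end Pool.Agent.H990R2.Ent
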