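import Pool.Agent.H990R2.Ent.Test

open Finset Filter Topology

namespace Pool.Agent.H990R2.Ent

open Pool.Agent.H990R2.CT

noncomputable section

theorem P_F1 (K : ℕ) (hK : 1 ≤ K) (x : Fin (10 * K + 1)) :
    (PP K).mulVec (fun j => F1 K j) x ≤ (9 / 10 + 1 / rr K) * F1 K x + 1 / rr K := by
  rw [PP_mulVec K (F1 K)]
  exact LL_F1 K hK x (by omega)

theorem P_F2 (K : ℕ) (hK : 1 ≤ K) (x : Fin (10 * K + 1)) :
    (PP K).mulVec (fun j => F2 K j) x ≤ (9 / 10 + 1 / rr K) * F2 K x + 1 / rr K := by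
  rw [PP_mulVec K (F2 K)]
  exact LL_F2 K hK x (by omega)

theorem inv_q (K : ℕ) (hK : 1 ≤ K) : (K : ℝ) ^ 2 * qq K = 1 := by
  have : (0 : ℝ) < K := by exact_mod_cast hK
  rw [qq]; field_simp

theorem P_u (K : ℕ) (hK : 1 ≤ K) (x : Fin (10 * K + 1)) :
    (PP K).mulVec (fun j => gg K j + qq K) x ≤
      (1 + (K : ℝ) ^ 2 / rr K) * (gg K x + qq K) + 0 := by
  have h := PP_mulVec K (fun j => gg K j + qq K) x
  simp only [add_sub_add_right_eq_sub] at h
  rw [h]
  have h1 := (LL_gg K hK x (by omega)).1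
  rw [LL] at h1
  have h2 : 1 / rr K ≤ (K : ℝ) ^ 2 / rr K * (gg K x + qq K) := by
    have h3 := inv_q K hK
    have h4 := gg_nonneg K hK x
    have h5 := rr_pos K
    have h6 : (K : ℝ) ^ 2 / rr K * (gg K x + qq K) = ((K : ℝ) ^ 2 * gg K x + 1) / rr K := by
      rw [← h3]; ring
    rw [h6]
    gcongr
    have : 0 ≤ (K : ℝ) ^ 2 * gg K x := by positivity
    linarith
  linarith

/-- bound for the probability of not being at the end at time `12 K` -/
def Tup (K : ℕ) : ℝ := Real.exp ((9 / 10 + 1 / rr K - 1) * (12 * K)) * (5 / 4) ^ (5 * K + 1) +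
  30 / rr K

theorem C_ok (K : ℕ) (hK : 1 ≤ K) :
    (9 / 10 + 1 / rr K) * (30 / rr K) + 1 / rr K ≤ 30 / rr K := by
  have h := rr_ge K hK
  have h0 : 0 < 1 / rr K := by have := rr_pos K; positivity
  have h1 : 1 / rr K ≤ 1 / 16 := one_div_le_one_div_of_le (by norm_num) h
  have h2 : 30 / rr K = 30 * (1 / rr K) := by ring
  rw [h2]
  nlinarith

theorem not_end (K : ℕ) (hK : 1 ≤ K) (x : Fin (10 * K + 1)) :
    ∑ y ∈ univ.erase (Fin.last (10 * K)), H (PP K) (12 * K) x y ≤
      Tup K + 2 * qq K * Real.exp ((K : ℝ) ^ 2 / rr K * (12 * K)) := by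
  have ht : (0 : ℝ) ≤ 12 * K := by positivity
  have hq := qq_pos K hK
  have hn := fun x y => H_nonneg (PP_nonneg K hK) ht x y
  have h0 : 0 < 1 / rr K := by have := rr_pos K; positivity
  have hC0 : 0 ≤ 30 / rr K := by have := rr_pos K; positivity
  have hsum : ∀ F : ℕ → ℝ, (∀ i, 0 ≤ F i) → (∀ i, i < 10 * K → 1 ≤ F i) →
      ∑ y ∈ univ.erase (Fin.last (10 * K)), H (PP K) (12 * K) x y ≤
      (H (PP K) (12 * K)).mulVec (fun j => F j) x := by
    intro F h1 h2
    rw [Matrix.mulVec, dotProduct]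
    calc ∑ y ∈ univ.erase (Fin.last (10 * K)), H (PP K) (12 * K) x y
        ≤ ∑ y ∈ univ.erase (Fin.last (10 * K)), H (PP K) (12 * K) x y * F y := by
          refine Finset.sum_le_sum fun y hy => ?_
          have hy' : (y : ℕ) < 10 * K := by
            have := Finset.ne_of_mem_erase hy
            have h3 : (y : ℕ) ≠ 10 * K := fun h => this (Fin.ext h)
            omega
          have := h2 y hy'
          have := hn x y
          nlinarith
      _ ≤ _ := Finset.sum_le_sum_of_subset_of_nonneg (Finset.subset_univ _)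
          fun y _ _ => mul_nonneg (hn x y) (h1 _)
  rcases le_or_gt (x : ℕ) (5 * K) with hx | hx
  · have e1 := hsum (fun i => F2 K i + gg K i)
      (fun i => add_nonneg (F2_nonneg K i) (gg_nonneg K hK i)) (fun i hi => by
        rcases le_or_gt i (5 * K) with h | h
        · have h1 : 1 ≤ F2 K i := by
            rw [F2, if_pos h]; exact one_le_pow₀ (by norm_num)
          have := gg_nonneg K hK i
          linarith
        · have h1 : gg K i = 1 := by rw [gg, if_neg (by omega), if_pos hi]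
          have := F2_nonneg K i
          linarith)
    have e2 : (H (PP K) (12 * K)).mulVec (fun j => F2 K j + gg K j) x =
        (H (PP K) (12 * K)).mulVec (fun j => F2 K j) x +
        (H (PP K) (12 * K)).mulVec (fun j => gg K j) x := by
      simp only [Matrix.mulVec, dotProduct, mul_add, Finset.sum_add_distrib]
    have e3 := H_super (PP_nonneg K hK) (PP_row K) (by positivity) (P_F2 K hK) hC0
      (C_ok K hK) ht x
    have e4 : F2 K x ≤ (5 / 4) ^ (5 * K + 1) := by
      rw [F2, if_pos hx]; exact pow_le_pow_right₀ (by norm_num) (by omega)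
    have e5 := H_super (PP_nonneg K hK) (PP_row K) (by have := rr_pos K; positivity) (P_u K hK) le_rfl
      (by simp) ht x
    have e6 : (H (PP K) (12 * K)).mulVec (fun j => gg K j + qq K) x =
        (H (PP K) (12 * K)).mulVec (fun j => gg K j) x + qq K := by
      simp only [Matrix.mulVec, dotProduct, mul_add, Finset.sum_add_distrib]
      rw [← Finset.sum_mul, H_row (PP_row K), one_mul]
    have e7 : gg K x = qq K := by rw [gg, if_pos hx]
    rw [e6, e7, add_sub_cancel_left] at e5
    have e8 : Real.exp ((9 / 10 + 1 / rr K - 1) * (12 * K)) * F2 K x ≤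
        Real.exp ((9 / 10 + 1 / rr K - 1) * (12 * K)) * (5 / 4) ^ (5 * K + 1) := by gcongr
    rw [e2] at e1
    rw [Tup]
    linarith
  · have e1 := hsum (F1 K) (F1_nonneg K) (fun i hi => by
      rw [F1, if_pos hi]; exact one_le_pow₀ (by norm_num))
    have e3 := H_super (PP_nonneg K hK) (PP_row K) (by positivity) (P_F1 K hK) hC0
      (C_ok K hK) ht x
    have e4 : F1 K x ≤ (5 / 4) ^ (5 * K + 1) := by
      rw [F1]
      split_ifs
      · exact pow_le_pow_right₀ (by norm_num) (by omega)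
      · positivity
    have e8 : Real.exp ((9 / 10 + 1 / rr K - 1) * (12 * K)) * F1 K x ≤
        Real.exp ((9 / 10 + 1 / rr K - 1) * (12 * K)) * (5 / 4) ^ (5 * K + 1) := by gcongr
    have e9 : 0 ≤ 2 * qq K * Real.exp ((K : ℝ) ^ 2 / rr K * (12 * K)) := by positivity
    rw [Tup]
    linarith

/-- error constant -/
def EE (K : ℕ) : ℝ := 16 * ((5 / 4) ^ K * (1 / rr K))

theorem LL_comb (K : ℕ) (c E : ℝ) (i : ℕ) :
    LL K (fun j => gg K j - c * (G2 K j + E)) i = LL K (gg K) i - c * LL K (G2 K) i := by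
  simp only [LL]
  rw [Finset.mul_sum, ← Finset.sum_sub_distrib]
  refine Finset.sum_congr rfl fun j _ => ?_
  ring

theorem pow_low (K : ℕ) (hK : 1 ≤ K) (k : ℕ) (x : Fin (10 * K + 1)) :
    gg K x - (G2 K x + EE K) * (9 / 8) ^ k ≤
      (PP K ^ k).mulVec (fun j => gg K j - G2 K j) x := by
  have h0 : 0 < 1 / rr K := by have := rr_pos K; positivity
  have hE : 0 ≤ EE K := by rw [EE]; positivity
  induction k generalizing x with
  | zero =>
    rw [pow_zero, pow_zero, Matrix.one_mulVec]
    linarith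
  | succ k ih =>
    have h1 : (PP K ^ (k + 1)).mulVec (fun j => gg K j - G2 K j) =
        (PP K).mulVec ((PP K ^ k).mulVec (fun j => gg K j - G2 K j)) := by
      rw [pow_succ', Matrix.mulVec_mulVec]
    rw [h1]
    refine le_trans ?_ (mulVec_mono' (PP_nonneg K hK) ih x)
    have h2 := PP_mulVec K (fun j => gg K j - (9 / 8) ^ k * (G2 K j + EE K)) x
    have h3 : (fun v : Fin (10 * K + 1) => gg K v - (G2 K v + EE K) * (9 / 8) ^ k) =
        fun v : Fin (10 * K + 1) => gg K v - (9 / 8) ^ k * (G2 K v + EE K) := by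
      ext v; ring
    rw [h3, h2]
    have h4 := LL_comb K ((9 / 8) ^ k) (EE K) x
    rw [LL] at h4
    rw [h4]
    have h5 := (LL_gg K hK x (by omega)).2
    have h6 := LL_G2 K hK x (by omega)
    set c : ℝ := (9 / 8) ^ k with hc
    have hc1 : 1 ≤ c := one_le_pow₀ (by norm_num)
    have h7 := mul_le_mul_of_nonneg_left h6 (show 0 ≤ c by linarith)
    have h8 : 1 / rr K ≤ (5 / 4) ^ K * (1 / rr K) := by
      have : (1 : ℝ) ≤ (5 / 4) ^ K := one_le_pow₀ (by norm_num)
      nlinarith
    set w : ℝ := (5 / 4) ^ K * (1 / rr K) with hw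
    have hw0 : 0 < w := by positivity
    have hEw : EE K = 16 * w := rfl
    rw [pow_succ]
    rw [hEw]
    have h9 : (if (x : ℕ) = 10 * K - 1 then (1 / 2 : ℝ) else 0) ≤
        c * (if (x : ℕ) = 10 * K - 1 then (1 / 2 : ℝ) else 0) := by
      split_ifs
      · linarith
      · simp
    have h10 : w ≤ c * w := by nlinarith
    nlinarith

theorem low (K : ℕ) (hK : 1 ≤ K) {t : ℝ} (ht : 0 ≤ t) :
    qq K - (qq K * (1 / (5 / 4) ^ (9 * K)) + EE K) * Real.exp (t / 8) ≤
      ∑ y ∈ univ.filter (fun y : Fin (10 * K + 1) => (y : ℕ) ≤ 9 * K), H (PP K) t 0 y := by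
  have h1 := mix_ge' (A := G2 K 0 + EE K) (C := gg K 0) (β := 9 / 8) ht
    (H_mulVec_hasSum (PP K) t (fun j => gg K j - G2 K j) 0) (fun k => pow_low K hK k 0)
  have e1 : gg K 0 = qq K := by rw [gg, if_pos (by omega)]
  have e2 : G2 K 0 = qq K * (1 / (5 / 4) ^ (9 * K)) := by rw [G2, e1, pow_zero]
  have e3 : ((9 / 8 : ℝ) - 1) * t = t / 8 := by ring
  rw [e3, e1, e2] at h1
  refine h1.trans ?_
  rw [Matrix.mulVec, dotProduct, Finset.sum_filter]
  refine Finset.sum_le_sum fun y _ => ?_
  have hh := H_nonneg (PP_nonneg K hK) ht 0 y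
  have hg := gg_le K hK y
  have hG := G2_nonneg K hK y
  split_ifs with hy
  · nlinarith
  · have : gg K y - G2 K y ≤ 0 := by
      rcases Nat.lt_or_ge (y : ℕ) (10 * K) with c | c
      · have g1 : gg K y = 1 := by rw [gg, if_neg (by omega), if_pos c]
        have g2 : 1 ≤ G2 K y := by
          rw [G2, g1, one_mul, le_div_iff₀ (by positivity), one_mul]
          exact pow_le_pow_right₀ (by norm_num) (by omega)
        linarith
      · have g1 : gg K y = 0 := by rw [gg, if_neg (by omega), if_neg (by omega)]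
        linarith
    nlinarith

end

end Pool.Agent.H990R2.Ent
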