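import Pool.Agent.H990R2.Ent.Gen

open Finset Filter Topology

namespace Pool.Agent.H990R2.Ent

open Pool.Agent.H990R2.CT

noncomputable section

def rr (K : ℕ) : ℝ := 16 ^ K
def qq (K : ℕ) : ℝ := 1 / (K : ℝ) ^ 2
def ee (K : ℕ) : ℝ := ((K : ℝ) ^ 2 - 1) / 2 / (rr K) ^ (5 * K)

/-- jump rates -/
def A (K : ℕ) (i j : ℕ) : ℝ :=
  (if j = i + 1 then (if i = 5 * K then qq K / 2 else 1 / 2) else 0) +
  (if i = j + 1 then 1 / (2 * rr K) else 0) +
  (if i = 5 * K ∧ j = 10 * K then (1 - qq K) / 2 else 0) +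
  (if i = 10 * K ∧ j = 5 * K then ee K else 0)

/-- weights -/
def ww (K : ℕ) (i : ℕ) : ℝ := if i ≤ 5 * K then (K : ℝ) ^ 2 * rr K ^ i else rr K ^ i

/-- generator -/
def QQ (K : ℕ) : Matrix (Fin (10 * K + 1)) (Fin (10 * K + 1)) ℝ := fun i j =>
  A K i j - if i = j then ∑ k : Fin (10 * K + 1), A K i k else 0

/-- jump matrix -/
def PP (K : ℕ) : Matrix (Fin (10 * K + 1)) (Fin (10 * K + 1)) ℝ := 1 + QQ K

theorem rr_ge (K : ℕ) (hK : 1 ≤ K) : 16 ≤ rr K := by
  rw [rr]
  calc (16 : ℝ) = 16 ^ 1 := by norm_num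
    _ ≤ 16 ^ K := pow_le_pow_right₀ (by norm_num) hK

theorem rr_pos (K : ℕ) : 0 < rr K := by rw [rr]; positivity

theorem qq_pos (K : ℕ) (hK : 1 ≤ K) : 0 < qq K := by
  have : (0 : ℝ) < K := by exact_mod_cast hK
  rw [qq]; positivity

theorem qq_le (K : ℕ) (hK : 1 ≤ K) : qq K ≤ 1 := by
  have : (1 : ℝ) ≤ K := by exact_mod_cast hK
  rw [qq, div_le_one (by positivity)]
  nlinarith

theorem ee_nonneg (K : ℕ) (hK : 1 ≤ K) : 0 ≤ ee K := by
  have : (1 : ℝ) ≤ K := by exact_mod_cast hK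
  have h2 := rr_pos K
  rw [ee]
  have : 0 ≤ (K : ℝ) ^ 2 - 1 := by nlinarith
  positivity

theorem K_sq_le (K : ℕ) : (K : ℝ) ^ 2 ≤ 4 ^ K := by
  have h : (K : ℝ) < 2 ^ K := by exact_mod_cast Nat.lt_two_pow_self
  have h0 : (0 : ℝ) ≤ K := Nat.cast_nonneg K
  calc (K : ℝ) ^ 2 ≤ (2 ^ K) ^ 2 := by gcongr
    _ = 4 ^ K := by rw [← pow_mul, mul_comm, pow_mul]; norm_num

theorem ee_bound (K : ℕ) (hK : 1 ≤ K) : ee K * (5 / 4) ^ (5 * K) ≤ 1 / (4 * rr K) := by
  have h2 := rr_pos K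
  have h3 := K_sq_le K
  have h5 : (rr K) ^ (5 * K) = rr K * (rr K) ^ (5 * K - 1) := by
    rw [← pow_succ']; congr 1; omega
  have h6 : (16 : ℝ) ^ (4 * K) ≤ (rr K) ^ (5 * K - 1) := by
    rw [rr, ← pow_mul]
    apply pow_le_pow_right₀ (by norm_num)
    have : 4 ≤ 5 * K - 1 := by omega
    calc 4 * K = K * 4 := by ring
      _ ≤ K * (5 * K - 1) := by gcongr
  have h7 : ((5 : ℝ) / 4) ^ (5 * K) ≤ 4 ^ K := by
    rw [pow_mul]
    gcongr
    norm_num
  have h8 : ee K ≤ 4 ^ K / 2 / (rr K) ^ (5 * K) := by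
    rw [ee]
    gcongr
    linarith
  calc ee K * (5 / 4) ^ (5 * K) ≤ (4 ^ K / 2 / (rr K) ^ (5 * K)) * 4 ^ K := by
        gcongr
    _ = (4 ^ K * 4 ^ K / 2) / (rr K * (rr K) ^ (5 * K - 1)) := by rw [h5]; ring
    _ ≤ (4 ^ K * 4 ^ K / 2) / (rr K * 16 ^ (4 * K)) := by gcongr
    _ ≤ 1 / (4 * rr K) := by
        have e1 : (4 : ℝ) ^ K * 4 ^ K = 16 ^ K := by rw [← mul_pow]; norm_num
        have e2 : (16 : ℝ) ^ (4 * K) = 16 ^ K * 16 ^ (3 * K) := by
          rw [← pow_add]; congr 1; ring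
        have e3 : (16 : ℝ) ≤ 16 ^ (3 * K) := by
          calc (16 : ℝ) = 16 ^ 1 := by norm_num
            _ ≤ 16 ^ (3 * K) := pow_le_pow_right₀ (by norm_num) (by omega)
        have e4 : (0 : ℝ) < 16 ^ K := by positivity
        rw [e1, e2, div_le_div_iff₀ (by positivity) (by positivity)]
        have e5 : (0 : ℝ) < rr K * 16 ^ K := by positivity
        nlinarith

theorem ee_le (K : ℕ) (hK : 1 ≤ K) : ee K ≤ 1 / (4 * rr K) := by
  refine le_trans ?_ (ee_bound K hK)
  have h1 := ee_nonneg K hK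
  have h2 : (1 : ℝ) ≤ (5 / 4) ^ (5 * K) := one_le_pow₀ (by norm_num)
  nlinarith

theorem A_nonneg (K : ℕ) (hK : 1 ≤ K) (i j : ℕ) : 0 ≤ A K i j := by
  have h1 := (qq_pos K hK).le
  have h2 := qq_le K hK
  have h3 := ee_nonneg K hK
  have h4 := rr_pos K
  have h5 : 0 ≤ (1 - qq K) / 2 := by linarith
  rw [A]
  split_ifs <;> positivity

/-- evaluation of the generator -/
theorem L_eq (K : ℕ) (F : ℕ → ℝ) (i : ℕ) (hi : i ≤ 10 * K) :
    ∑ j ∈ range (10 * K + 1), A K i j * (F j - F i) =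
      (if i < 10 * K then (if i = 5 * K then qq K / 2 else 1 / 2) * (F (i + 1) - F i) else 0) +
      (if 1 ≤ i then 1 / (2 * rr K) * (F (i - 1) - F i) else 0) +
      (if i = 5 * K then (1 - qq K) / 2 * (F (10 * K) - F i) else 0) +
      (if i = 10 * K then ee K * (F (5 * K) - F i) else 0) := by
  simp only [A, add_mul, Finset.sum_add_distrib]
  congr 1
  · congr 1
    · congr 1
      · simp only [ite_mul, zero_mul]
        rw [Finset.sum_ite_eq' (range (10 * K + 1)) (i + 1)]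
        simp only [mem_range]
        have : i + 1 < 10 * K + 1 ↔ i < 10 * K := by omega
        simp only [this]
      · simp only [ite_mul, zero_mul]
        by_cases h : 1 ≤ i
        · rw [if_pos h, Finset.sum_eq_single (i - 1)]
          · rw [if_pos (by omega)]
          · intro j _ hj
            rw [if_neg (by omega)]
          · intro hn
            exfalso; apply hn
            rw [mem_range]; omega
        · rw [if_neg h]
          apply Finset.sum_eq_zero
          intro j _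
          rw [if_neg (by omega)]
    · by_cases h : i = 5 * K
      · simp only [h, true_and, ite_mul, zero_mul, if_true]
        rw [Finset.sum_ite_eq' (range (10 * K + 1)) (10 * K)]
        rw [if_pos]
        rw [mem_range]; omega
      · simp [h]
  · by_cases h : i = 10 * K
    · simp only [h, true_and, ite_mul, zero_mul, if_true]
      rw [Finset.sum_ite_eq' (range (10 * K + 1)) (5 * K)]
      rw [if_pos]
      rw [mem_range]; omega
    · simp [h]

theorem PP_mulVec (K : ℕ) (F : ℕ → ℝ) (i : Fin (10 * K + 1)) :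
    (PP K).mulVec (fun j => F j) i = F i + ∑ j ∈ range (10 * K + 1), A K i j * (F j - F i) := by
  rw [PP, Matrix.add_mulVec, Matrix.one_mulVec]
  simp only [Pi.add_apply]
  congr 1
  simp only [Matrix.mulVec, dotProduct, QQ, sub_mul, ite_mul, zero_mul]
  rw [Finset.sum_sub_distrib, Finset.sum_ite_eq univ i]
  simp only [mem_univ, if_true]
  rw [Finset.sum_mul, ← Finset.sum_sub_distrib,
    ← Fin.sum_univ_eq_sum_range (fun j => A K i j * (F j - F i)) (10 * K + 1)]
  refine Finset.sum_congr rfl fun j _ => ?_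
  ring

theorem QQ_row (K : ℕ) (i : Fin (10 * K + 1)) : ∑ j, QQ K i j = 0 := by
  simp only [QQ]
  rw [Finset.sum_sub_distrib, Finset.sum_ite_eq univ i]
  simp

theorem PP_row (K : ℕ) (i : Fin (10 * K + 1)) : ∑ j, PP K i j = 1 := by
  simp only [PP, Matrix.add_apply]
  rw [Finset.sum_add_distrib, QQ_row]
  simp [Matrix.one_apply]

theorem A_diag (K : ℕ) (hK : 1 ≤ K) (i : ℕ) : A K i i = 0 := by
  rw [A, if_neg (by omega), if_neg (by omega), if_neg (by omega), if_neg (by omega)]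
  norm_num

theorem exit_le (K : ℕ) (hK : 1 ≤ K) (i : Fin (10 * K + 1)) :
    ∑ k : Fin (10 * K + 1), A K i k ≤ 1 := by
  have h := L_eq K (fun j => if j = (i : ℕ) then 0 else 1) i (by omega)
  have h2 : ∑ k : Fin (10 * K + 1), A K i k = ∑ j ∈ range (10 * K + 1), A K i j *
      ((if j = (i : ℕ) then 0 else 1) - (if (i : ℕ) = (i : ℕ) then 0 else 1)) := by
    rw [Fin.sum_univ_eq_sum_range (fun j => A K i j) (10 * K + 1)]
    refine Finset.sum_congr rfl fun j _ => ?_
    by_cases hj : j = (i : ℕ)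
    · rw [hj, A_diag K hK]; simp
    · rw [if_neg hj]; simp
  rw [h2, h]
  have hr := rr_ge K hK
  have h1 := (qq_pos K hK).le
  have h2 := qq_le K hK
  have h3 := ee_le K hK
  have h4 : 1 / (2 * rr K) ≤ 1 / 32 := by
    apply one_div_le_one_div_of_le (by norm_num); linarith
  have h5 : 1 / (4 * rr K) ≤ 1 / 64 := by
    apply one_div_le_one_div_of_le (by norm_num); linarith
  have h6 : 0 < 1 / (2 * rr K) := by positivity
  have hi := i.isLt
  simp only [if_true]
  rw [if_neg (show ¬ ((i : ℕ) + 1 = i) by omega)]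
  by_cases c1 : (i : ℕ) < 10 * K <;> by_cases c2 : (i : ℕ) = 5 * K <;>
    by_cases c3 : 1 ≤ (i : ℕ) <;> by_cases c4 : (i : ℕ) = 10 * K <;>
    simp only [c1, c2, c3, c4, if_true, if_false] <;>
    first
      | (exfalso; omega)
      | (norm_num; done)
      | (norm_num; linarith)
      | (split_ifs <;> first
          | (exfalso; omega) | (norm_num; done) | (norm_num; linarith) | linarith)

theorem PP_nonneg (K : ℕ) (hK : 1 ≤ K) (i j : Fin (10 * K + 1)) : 0 ≤ PP K i j := by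
  rw [PP, Matrix.add_apply, QQ, Matrix.one_apply]
  have h1 := A_nonneg K hK i j
  have h2 := exit_le K hK i
  split_ifs with h
  · linarith
  · linarith

end

end Pool.Agent.H990R2.Ent
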