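import Pool.Agent.H990R2.Ent.Weights

open Finset Filter Topology

namespace Pool.Agent.H990R2.Ent

open Pool.Agent.H990R2.CT

noncomputable section

section gen

variable {V : Type*} [Fintype V] [DecidableEq V]

theorem doeblin_osc {M : Matrix V V ℝ} (hM : ∀ x y, 0 ≤ M x y) (hrow : ∀ x, ∑ y, M x y = 1)
    {c : ℝ} (z : V) (hc : ∀ x, c ≤ M x z) (f : V → ℝ) (L : ℝ) (h0 : ∀ x, 0 ≤ f x)
    (h1 : ∀ x, f x ≤ L) (k : ℕ) :
    ∃ m : ℝ, ∀ x, m ≤ (M ^ k).mulVec f x ∧ (M ^ k).mulVec f x ≤ m + (1 - c) ^ k * L := by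
  induction k with
  | zero =>
    refine ⟨0, fun x => ?_⟩
    rw [pow_zero, Matrix.one_mulVec, pow_zero, one_mul, zero_add]
    exact ⟨h0 x, h1 x⟩
  | succ k ih =>
    obtain ⟨m, hm⟩ := ih
    set g : V → ℝ := (M ^ k).mulVec f with hg
    set Lk : ℝ := (1 - c) ^ k * L with hL
    refine ⟨c * g z + (1 - c) * m, fun x => ?_⟩
    have e : (M ^ (k + 1)).mulVec f x = ∑ y, M x y * g y := by
      rw [pow_succ', ← Matrix.mulVec_mulVec]; rfl
    have hsplit : ∀ h : V → ℝ, ∑ y, M x y * h y =
        c * h z + ∑ y, (M x y - if y = z then c else 0) * h y := by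
      intro h
      simp only [sub_mul, Finset.sum_sub_distrib, ite_mul, zero_mul, Finset.sum_ite_eq',
        Finset.mem_univ, if_true]
      ring
    have hnn : ∀ y, 0 ≤ M x y - if y = z then c else 0 := by
      intro y
      split_ifs with hy
      · rw [hy]; linarith [hc x]
      · simpa using hM x y
    have hs : ∑ y, (M x y - if y = z then c else 0) = 1 - c := by
      rw [Finset.sum_sub_distrib, hrow]
      simp
    rw [e, hsplit g]
    constructor
    · have : ∑ y, (M x y - if y = z then c else 0) * m ≤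
          ∑ y, (M x y - if y = z then c else 0) * g y :=
        Finset.sum_le_sum fun y _ => mul_le_mul_of_nonneg_left (hm y).1 (hnn y)
      rw [← Finset.sum_mul, hs] at this
      linarith
    · have : ∑ y, (M x y - if y = z then c else 0) * g y ≤
          ∑ y, (M x y - if y = z then c else 0) * (m + Lk) :=
        Finset.sum_le_sum fun y _ => mul_le_mul_of_nonneg_left (hm y).2 (hnn y)
      rw [← Finset.sum_mul, hs] at this
      have e3 : (1 - c) ^ (k + 1) * L = (1 - c) * Lk := by rw [hL]; ring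
      rw [e3]
      linarith

theorem stationary_pow {M : Matrix V V ℝ} {π : V → ℝ} (hst : ∀ y, ∑ x, π x * M x y = π y)
    (k : ℕ) (y : V) : ∑ x, π x * (M ^ k) x y = π y := by
  induction k generalizing y with
  | zero => simp [Matrix.one_apply]
  | succ k ih =>
    rw [pow_succ]
    simp only [Matrix.mul_apply, Finset.mul_sum]
    rw [Finset.sum_comm]
    simp only [← mul_assoc]
    simp only [← Finset.sum_mul, ih, hst]

theorem stationary_H {P : Matrix V V ℝ} {π : V → ℝ} (hst : ∀ y, ∑ x, π x * P x y = π y)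
    (t : ℝ) (y : V) : ∑ x, π x * H P t x y = π y := by
  have h := hasSum_sum (s := (univ : Finset V)) fun x _ => (H_hasSum P t x y).mul_left (π x)
  have h2 := (poisson_hasSum t 1).mul_right (π y)
  rw [sub_self, zero_mul, Real.exp_zero, one_mul] at h2
  refine h.unique ?_
  refine (hasSum_congr1 fun k => ?_).mpr h2
  rw [one_pow, mul_one, ← stationary_pow hst k y, Finset.mul_sum]
  refine Finset.sum_congr rfl fun x _ => ?_
  ring

theorem doeblin_entry {M : Matrix V V ℝ} (hM : ∀ x y, 0 ≤ M x y) (hrow : ∀ x, ∑ y, M x y = 1)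
    {c : ℝ} (z : V) (hc : ∀ x, c ≤ M x z) {π : V → ℝ} (hπ : ∀ y, 0 < π y)
    (hπ1 : ∑ y, π y = 1) (hst : ∀ y, ∑ x, π x * M x y = π y) (k : ℕ) (x y : V) :
    |(M ^ k) x y - π y| ≤ (1 - c) ^ k := by
  obtain ⟨m, hm⟩ := doeblin_osc hM hrow z hc (Pi.single y 1) 1
    (fun w => by rw [Pi.single_apply]; split_ifs <;> norm_num)
    (fun w => by rw [Pi.single_apply]; split_ifs <;> norm_num) k
  have he : ∀ w, (M ^ k).mulVec (Pi.single y 1) w = (M ^ k) w y := fun w => by simp
  simp only [he, mul_one] at hm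
  have h1 : m ≤ π y := by
    rw [← stationary_pow hst k y]
    calc m = ∑ w, π w * m := by rw [← Finset.sum_mul, hπ1, one_mul]
      _ ≤ _ := Finset.sum_le_sum fun w _ => mul_le_mul_of_nonneg_left (hm w).1 (hπ w).le
  have h2 : π y ≤ m + (1 - c) ^ k := by
    rw [← stationary_pow hst k y]
    calc _ ≤ ∑ w, π w * (m + (1 - c) ^ k) :=
          Finset.sum_le_sum fun w _ => mul_le_mul_of_nonneg_left (hm w).2 (hπ w).le
      _ = _ := by rw [← Finset.sum_mul, hπ1, one_mul]
  rw [abs_le]
  constructor <;> linarith [(hm x).1, (hm x).2]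

/-- the relative entropy tends to zero -/
theorem ent_tendsto {P : Matrix V V ℝ} (hP : ∀ u v, 0 ≤ P u v) (hrow : ∀ u, ∑ v, P u v = 1)
    {π : V → ℝ} (hπ : ∀ y, 0 < π y) (hπ1 : ∑ y, π y = 1)
    (hst : ∀ y, ∑ x, π x * P x y = π y) {s : ℝ} (hs : 0 ≤ s) {c : ℝ} (hc0 : 0 < c) (z : V)
    (hc : ∀ x, c ≤ H P s x z) (ε : ℝ) (hε : 0 < ε) :
    ∃ t : ℝ, 0 ≤ t ∧ ∀ x, ent P π t x ≤ ε := by
  have hc1 : c ≤ 1 := by
    have := H_row hrow s z
    have h2 := Finset.single_le_sum (f := fun y => H P s z y) (fun y _ => H_nonneg hP hs z y)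
      (Finset.mem_univ z)
    linarith [hc z]
  set S : ℝ := ∑ y, 1 / π y with hS
  have hS0 : 0 < S := Finset.sum_pos (fun y _ => one_div_pos.mpr (hπ y)) ⟨z, Finset.mem_univ z⟩
  obtain ⟨k, hk⟩ := exists_pow_lt_of_lt_one (show 0 < ε / S by positivity)
    (show (1 - c : ℝ) < 1 by linarith)
  refine ⟨k * s, by positivity, fun x => ?_⟩
  have hd := doeblin_entry (fun x y => H_nonneg hP hs x y) (H_row hrow s) z hc hπ hπ1
    (stationary_H hst s) k
  rw [← H_nsmul] at hd
  have hks : (0 : ℝ) ≤ k * s := by positivity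
  have hp0 : (0 : ℝ) ≤ (1 - c) ^ k := pow_nonneg (by linarith) k
  rw [ent]
  calc ∑ y, H P (k * s) x y * Real.log (H P (k * s) x y / π y)
      ≤ ∑ y, (1 - c) ^ k * (1 / π y) := by
        refine Finset.sum_le_sum fun y _ => ?_
        have hh := H_nonneg hP hks x y
        have hh1 : H P (k * s) x y ≤ 1 := by
          rw [← H_row hrow (k * s) x]
          exact Finset.single_le_sum (f := fun y => H P (k * s) x y)
            (fun y _ => H_nonneg hP hks x y) (Finset.mem_univ y)
        have h1 := hd x y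
        have h2 := (abs_le.mp h1).2
        have hπy := hπ y
        rcases hh.eq_or_lt with h0 | h0
        · rw [← h0, zero_mul]; positivity
        · have h3 : Real.log (H P (k * s) x y / π y) ≤ H P (k * s) x y / π y - 1 :=
            Real.log_le_sub_one_of_pos (by positivity)
          have h4 : H P (k * s) x y / π y - 1 = (H P (k * s) x y - π y) * (1 / π y) := by
            field_simp
          rw [h4] at h3
          have h5 : 0 < 1 / π y := by positivity
          have h6 : (H P (k * s) x y - π y) * (1 / π y) ≤ (1 - c) ^ k * (1 / π y) :=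
            mul_le_mul_of_nonneg_right h2 h5.le
          have h7 : 0 ≤ (1 - c) ^ k * (1 / π y) := by positivity
          calc _ ≤ H P (k * s) x y * ((1 - c) ^ k * (1 / π y)) :=
                mul_le_mul_of_nonneg_left (h3.trans h6) hh
            _ ≤ 1 * ((1 - c) ^ k * (1 / π y)) := mul_le_mul_of_nonneg_right hh1 h7
            _ = _ := one_mul _
    _ = (1 - c) ^ k * S := by rw [← Finset.mul_sum]
    _ ≤ (ε / S) * S := mul_le_mul_of_nonneg_right hk.le hS0.le
    _ = ε := by field_simp

end gen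

end

end Pool.Agent.H990R2.Ent
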