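import Pool.Agent.H990R2.CT

open Finset Filter Topology

namespace Pool.Agent.H990R2.Ent

open Pool.Agent.H990R2.CT

noncomputable section

variable {V : Type*} [Fintype V] [DecidableEq V]

theorem mix_le {a : ℕ → ℝ} {t s A C β : ℝ} (ht : 0 ≤ t)
    (hs : HasSum (fun k : ℕ => Real.exp (-t) * (t ^ k / k.factorial) * a k) s)
    (h : ∀ k, a k ≤ A * β ^ k + C) : s ≤ A * Real.exp ((β - 1) * t) + C := by
  have h1 := poisson_hasSum t 1
  have h2 := poisson_hasSum t β
  have h3 : HasSum (fun k : ℕ => Real.exp (-t) * (t ^ k / k.factorial) * (A * β ^ k + C))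
      (A * Real.exp ((β - 1) * t) + C) := by
    have h4 := (h2.mul_left A).add (h1.mul_left C)
    rw [sub_self, zero_mul, Real.exp_zero, mul_one] at h4
    refine (hasSum_congr1 fun k => ?_).mpr h4
    rw [one_pow]; ring
  refine hasSum_le (fun k => ?_) hs h3
  exact mul_le_mul_of_nonneg_left (h k) (by positivity)

theorem mix_ge' {a : ℕ → ℝ} {t s A C β : ℝ} (ht : 0 ≤ t)
    (hs : HasSum (fun k : ℕ => Real.exp (-t) * (t ^ k / k.factorial) * a k) s)
    (h : ∀ k, C - A * β ^ k ≤ a k) : C - A * Real.exp ((β - 1) * t) ≤ s := by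
  have h1 := poisson_hasSum t 1
  have h2 := poisson_hasSum t β
  have h3 : HasSum (fun k : ℕ => Real.exp (-t) * (t ^ k / k.factorial) * (C - A * β ^ k))
      (C - A * Real.exp ((β - 1) * t)) := by
    have h4 := (h1.mul_left C).sub (h2.mul_left A)
    rw [sub_self, zero_mul, Real.exp_zero, mul_one] at h4
    refine (hasSum_congr1 fun k => ?_).mpr h4
    rw [one_pow]; ring
  refine hasSum_le (fun k => ?_) h3 hs
  exact mul_le_mul_of_nonneg_left (h k) (by positivity)

theorem mulVec_mono' {P : Matrix V V ℝ} (h : ∀ u v, 0 ≤ P u v) {f g : V → ℝ}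
    (hfg : ∀ v, f v ≤ g v) (u : V) : P.mulVec f u ≤ P.mulVec g u := by
  rw [Matrix.mulVec, Matrix.mulVec, dotProduct, dotProduct]
  exact Finset.sum_le_sum fun v _ => mul_le_mul_of_nonneg_left (hfg v) (h _ _)

theorem pow_nn {P : Matrix V V ℝ} (h : ∀ u v, 0 ≤ P u v) (t : ℕ) (u v : V) :
    0 ≤ (P ^ t) u v := by
  induction t generalizing u with
  | zero => rw [pow_zero, Matrix.one_apply]; split_ifs <;> norm_num
  | succ t ih =>
    rw [pow_succ', Matrix.mul_apply]
    exact Finset.sum_nonneg fun w _ => mul_nonneg (h _ _) (ih _)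

theorem pow_row' {P : Matrix V V ℝ} (h : ∀ u, ∑ v, P u v = 1) (t : ℕ) (u : V) :
    ∑ v, (P ^ t) u v = 1 := by
  induction t generalizing u with
  | zero => simp [Matrix.one_apply]
  | succ t ih =>
    rw [pow_succ']
    simp only [Matrix.mul_apply]
    rw [Finset.sum_comm]
    simp only [← Finset.mul_sum, ih, mul_one, h]

theorem mulVec_affine {P : Matrix V V ℝ} (hrow : ∀ u, ∑ v, P u v = 1) (f : V → ℝ) (a b : ℝ)
    (u : V) : P.mulVec (fun v => a * f v + b) u = a * P.mulVec f u + b := by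
  simp only [Matrix.mulVec, dotProduct]
  have : ∀ v, P u v * (a * f v + b) = a * (P u v * f v) + b * P u v := fun v => by ring
  simp only [this]
  rw [Finset.sum_add_distrib, ← Finset.mul_sum, ← Finset.mul_sum, hrow, mul_one]

theorem pow_super {P : Matrix V V ℝ} (hP : ∀ u v, 0 ≤ P u v) (hrow : ∀ u, ∑ v, P u v = 1)
    {f : V → ℝ} {ρ κ C : ℝ} (hρ : 0 ≤ ρ) (hf : ∀ x, P.mulVec f x ≤ ρ * f x + κ)
    (hC0 : 0 ≤ C) (hC : ρ * C + κ ≤ C) (k : ℕ) (x : V) :
    (P ^ k).mulVec f x ≤ ρ ^ k * f x + C := by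
  induction k with
  | zero => simp [hC0]
  | succ k ih =>
    have h1 : (P ^ (k + 1)).mulVec f x = (P ^ k).mulVec (P.mulVec f) x := by
      rw [pow_succ, Matrix.mulVec_mulVec]
    rw [h1]
    have h2 := mulVec_mono' (P := P ^ k) (pow_nn hP k) hf x
    rw [mulVec_affine (pow_row' hrow k)] at h2
    have h3 : ρ * (P ^ k).mulVec f x ≤ ρ * (ρ ^ k * f x + C) := mul_le_mul_of_nonneg_left ih hρ
    calc _ ≤ ρ * (P ^ k).mulVec f x + κ := h2
      _ ≤ ρ * (ρ ^ k * f x + C) + κ := by linarith
      _ = ρ ^ (k + 1) * f x + (ρ * C + κ) := by ring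
      _ ≤ _ := by linarith

/-- supersolutions -/
theorem H_super {P : Matrix V V ℝ} (hP : ∀ u v, 0 ≤ P u v) (hrow : ∀ u, ∑ v, P u v = 1)
    {f : V → ℝ} {ρ κ C : ℝ} (hρ : 0 ≤ ρ) (hf : ∀ x, P.mulVec f x ≤ ρ * f x + κ)
    (hC0 : 0 ≤ C) (hC : ρ * C + κ ≤ C) {t : ℝ} (ht : 0 ≤ t) (x : V) :
    (H P t).mulVec f x ≤ Real.exp ((ρ - 1) * t) * f x + C := by
  have h := mix_le (A := f x) (C := C) (β := ρ) ht (H_mulVec_hasSum P t f x) (fun k => by
    have := pow_super hP hrow hρ hf hC0 hC k x
    linarith)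
  linarith

/-- the relative entropy of the law at time `t` from `x` -/
def ent (P : Matrix V V ℝ) (π : V → ℝ) (t : ℝ) (x : V) : ℝ :=
  ∑ y, H P t x y * Real.log (H P t x y / π y)

theorem log_lower {a b κ : ℝ} (ha : 0 ≤ a) (hb : 0 < b) (hκ : 0 < κ) :
    a * Real.log κ + a - κ * b ≤ a * Real.log (a / b) := by
  rcases ha.eq_or_lt with h0 | h0
  · rw [← h0]; simp; positivity
  · have h1 : Real.log (κ * b / a) ≤ κ * b / a - 1 := Real.log_le_sub_one_of_pos (by positivity)
    have h2 : Real.log (κ * b / a) = Real.log κ - Real.log (a / b) := by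
      rw [show κ * b / a = κ / (a / b) by field_simp, Real.log_div (by positivity) (by positivity)]
    rw [h2] at h1
    have h3 := mul_le_mul_of_nonneg_left h1 ha
    have h4 : a * (κ * b / a - 1) = κ * b - a := by field_simp
    rw [h4] at h3
    linarith

/-- lower bound for the entropy -/
theorem ent_lower {P : Matrix V V ℝ} (hP : ∀ u v, 0 ≤ P u v) (hrow : ∀ u, ∑ v, P u v = 1)
    {π : V → ℝ} (hπ : ∀ y, 0 < π y) (hπ1 : ∑ y, π y = 1) {t : ℝ} (ht : 0 ≤ t) (x : V)
    (B : Finset V) {κ : ℝ} (hκ : 1 ≤ κ) :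
    (∑ y ∈ B, H P t x y) * Real.log κ - κ * ∑ y ∈ B, π y ≤ ent P π t x := by
  classical
  have hκ0 : 0 < κ := by linarith
  have h1 : ∀ y, (if y ∈ B then H P t x y * Real.log κ + H P t x y - κ * π y else
      H P t x y - π y) ≤ H P t x y * Real.log (H P t x y / π y) := by
    intro y
    have hh := H_nonneg hP ht x y
    split_ifs
    · exact log_lower hh (hπ y) hκ0
    · have := log_lower hh (hπ y) one_pos
      simpa using this
  have h2 := Finset.sum_le_sum fun y (_ : y ∈ univ) => h1 y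
  refine le_trans ?_ h2
  have h3 : ∀ y, (if y ∈ B then H P t x y * Real.log κ + H P t x y - κ * π y else
      H P t x y - π y) = (H P t x y - π y) + (if y ∈ B then H P t x y * Real.log κ -
        (κ - 1) * π y else 0) := by
    intro y
    split_ifs <;> ring
  simp only [h3]
  rw [Finset.sum_add_distrib, Finset.sum_sub_distrib, H_row hrow, hπ1, sub_self, zero_add,
    ← Finset.sum_filter, Finset.filter_mem_eq_inter, Finset.univ_inter,
    Finset.sum_sub_distrib, ← Finset.sum_mul, ← Finset.mul_sum]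
  have h4 : 0 ≤ ∑ y ∈ B, π y := Finset.sum_nonneg fun y _ => (hπ y).le
  nlinarith

/-- upper bound for the entropy -/
theorem ent_upper {P : Matrix V V ℝ} (hP : ∀ u v, 0 ≤ P u v) (hrow : ∀ u, ∑ v, P u v = 1)
    {π : V → ℝ} (hπ : ∀ y, 0 < π y) {t : ℝ} (ht : 0 ≤ t) (x z : V) {Λ Λ0 : ℝ}
    (hΛ : ∀ y, -Real.log (π y) ≤ Λ) (hΛ0 : -Real.log (π z) ≤ Λ0) (h0 : 0 ≤ Λ0) (hL : 0 ≤ Λ) :
    ent P π t x ≤ Λ * (∑ y ∈ univ.erase z, H P t x y) + Λ0 := by
  have hle1 : ∀ y, H P t x y ≤ 1 := by
    intro y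
    rw [← H_row hrow t x]
    exact Finset.single_le_sum (f := fun y => H P t x y) (fun y _ => H_nonneg hP ht x y)
      (Finset.mem_univ y)
  have h1 : ∀ y, H P t x y * Real.log (H P t x y / π y) ≤ H P t x y * -Real.log (π y) := by
    intro y
    have hh := H_nonneg hP ht x y
    rcases hh.eq_or_lt with h | h
    · rw [← h]; simp
    · apply mul_le_mul_of_nonneg_left _ hh
      rw [Real.log_div h.ne' (hπ y).ne']
      have := Real.log_nonpos hh (hle1 y)
      linarith
  rw [ent, ← Finset.add_sum_erase univ _ (Finset.mem_univ z), add_comm]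
  refine add_le_add ?_ ?_
  · rw [Finset.mul_sum]
    refine Finset.sum_le_sum fun y _ => (h1 y).trans ?_
    have := mul_le_mul_of_nonneg_left (hΛ y) (H_nonneg hP ht x y)
    linarith
  · refine (h1 z).trans ?_
    have hh := H_nonneg hP ht x z
    have := mul_le_mul_of_nonneg_left hΛ0 hh
    have h2 : H P t x z * Λ0 ≤ 1 * Λ0 := mul_le_mul_of_nonneg_right (hle1 z) h0
    linarith

theorem H_add (P : Matrix V V ℝ) (s t : ℝ) : H P (s + t) = H P s * H P t := by
  rw [H, H, H, add_smul, Matrix.exp_add_of_commute]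
  exact ((Commute.refl _).smul_left _).smul_right _

theorem H_zero (P : Matrix V V ℝ) : H P 0 = 1 := by
  rw [H, zero_smul, NormedSpace.exp_zero]

/-- data processing: entropy decreases in time -/
theorem ent_anti {P : Matrix V V ℝ} (hP : ∀ u v, 0 ≤ P u v) (hrow : ∀ u, ∑ v, P u v = 1)
    {π : V → ℝ} (hπ : ∀ y, 0 < π y) (hst : ∀ y, ∑ x, π x * P x y = π y) {s t : ℝ} (hs : 0 ≤ s)
    (ht : 0 ≤ t) (x : V) : ent P π (s + t) x ≤ ent P π s x := by
  have hstk : ∀ (k : ℕ) (y : V), ∑ x, π x * (P ^ k) x y = π y := by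
    intro k
    induction k with
    | zero => intro y; simp [Matrix.one_apply]
    | succ k ih =>
      intro y
      rw [pow_succ]
      simp only [Matrix.mul_apply, Finset.mul_sum]
      rw [Finset.sum_comm]
      simp only [← mul_assoc]
      simp only [← Finset.sum_mul, ih, hst]
  have hstH : ∀ y, ∑ x, π x * H P t x y = π y := by
    intro y
    have h := hasSum_sum (s := (univ : Finset V)) fun x _ => (H_hasSum P t x y).mul_left (π x)
    have h2 := (poisson_hasSum t 1).mul_right (π y)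
    rw [sub_self, zero_mul, Real.exp_zero, one_mul] at h2
    refine h.unique ?_
    refine (hasSum_congr1 fun k => ?_).mpr h2
    rw [one_pow, mul_one, ← hstk k y, Finset.mul_sum]
    refine Finset.sum_congr rfl fun x _ => ?_
    ring
  have hn := fun u v => H_nonneg hP hs u v
  have hn' := fun u v => H_nonneg hP ht u v
  have key : ∀ y, H P (s + t) x y * Real.log (H P (s + t) x y / π y) ≤
      ∑ w, H P t w y * (H P s x w * Real.log (H P s x w / π w)) := by
    intro y
    rw [H_add, Matrix.mul_apply]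
    set a : ℝ := ∑ w, H P s x w * H P t w y with ha
    have ha0 : 0 ≤ a := Finset.sum_nonneg fun w _ => mul_nonneg (hn _ _) (hn' _ _)
    rcases ha0.eq_or_lt with h0 | h0
    · rw [← h0, zero_mul]
      have h1 : ∀ w, H P t w y * (H P s x w * Real.log (H P s x w / π w)) = 0 := by
        intro w
        have h2 := (Finset.sum_eq_zero_iff_of_nonneg
          (fun w _ => mul_nonneg (hn x w) (hn' w y))).mp (by rw [← ha, ← h0]) w (Finset.mem_univ w)
        rw [← mul_assoc, mul_comm (H P t w y), h2, zero_mul]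
      rw [Finset.sum_eq_zero fun w _ => h1 w]
    · have hκ : 0 < a / π y := div_pos h0 (hπ y)
      have h1 : ∀ w, H P t w y * (H P s x w * Real.log (a / π y) + H P s x w - (a / π y) * π w) ≤
          H P t w y * (H P s x w * Real.log (H P s x w / π w)) := fun w =>
        mul_le_mul_of_nonneg_left (log_lower (hn x w) (hπ w) hκ) (hn' w y)
      have h2 := Finset.sum_le_sum fun w (_ : w ∈ univ) => h1 w
      refine le_trans (le_of_eq ?_) h2
      have h3 : ∀ w, H P t w y * (H P s x w * Real.log (a / π y) + H P s x w -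
          (a / π y) * π w) = (H P s x w * H P t w y) * (Real.log (a / π y) + 1) -
            (a / π y) * (π w * H P t w y) := fun w => by ring
      simp only [h3]
      rw [Finset.sum_sub_distrib, ← Finset.sum_mul, ← Finset.mul_sum, hstH, ← ha]
      have := (hπ y).ne'
      field_simp
      ring
  rw [ent, ent]
  refine (Finset.sum_le_sum fun y _ => key y).trans (le_of_eq ?_)
  rw [Finset.sum_comm]
  refine Finset.sum_congr rfl fun w _ => ?_
  rw [← Finset.sum_mul, H_row hrow, one_mul]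

end

end Pool.Agent.H990R2.Ent
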