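import Pool.Agent.H990R2.Ent.Chain

open Finset Filter Topology

namespace Pool.Agent.H990R2.Ent

open Pool.Agent.H990R2.CT

noncomputable section

def F1 (K i : ℕ) : ℝ := if i < 10 * K then (5 / 4) ^ (10 * K - i) else 0
def F2 (K i : ℕ) : ℝ := if i ≤ 5 * K then (5 / 4) ^ (5 * K + 1 - i) else 0
def gg (K i : ℕ) : ℝ := if i ≤ 5 * K then qq K else if i < 10 * K then 1 else 0
def G2 (K i : ℕ) : ℝ := gg K i * ((5 / 4) ^ i / (5 / 4) ^ (9 * K))

/-- the generator on functions of the position -/
def LL (K : ℕ) (F : ℕ → ℝ) (i : ℕ) : ℝ := ∑ j ∈ range (10 * K + 1), A K i j * (F j - F i)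

theorem F1_nonneg (K i : ℕ) : 0 ≤ F1 K i := by rw [F1]; split_ifs <;> positivity
theorem F2_nonneg (K i : ℕ) : 0 ≤ F2 K i := by rw [F2]; split_ifs <;> positivity

theorem inv2 (K : ℕ) : 1 / (2 * rr K) = (1 / 2) * (1 / rr K) := by ring
theorem inv4 (K : ℕ) : 1 / (4 * rr K) = (1 / 4) * (1 / rr K) := by ring

theorem LL_F1 (K : ℕ) (hK : 1 ≤ K) (i : ℕ) (hi : i ≤ 10 * K) :
    F1 K i + LL K (F1 K) i ≤ (9 / 10 + 1 / rr K) * F1 K i + 1 / rr K := by
  have hr := rr_ge K hK
  have hr0 : 0 < 1 / rr K := by have := rr_pos K; positivity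
  have h1 := qq_pos K hK
  have h2 := qq_le K hK
  rw [LL, L_eq K _ i hi]
  rcases hi.lt_or_eq with h | h
  · have hF := F1_nonneg K i
    have e1 : F1 K (i + 1) ≤ (4 / 5) * F1 K i := by
      rw [F1, F1, if_pos h]
      split_ifs with h'
      · have : 10 * K - i = (10 * K - (i + 1)) + 1 := by omega
        rw [this, pow_succ]
        have : (0 : ℝ) < (5 / 4) ^ (10 * K - (i + 1)) := by positivity
        linarith
      · positivity
    have e2 : 1 ≤ i → F1 K (i - 1) = (5 / 4) * F1 K i := by
      intro h1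
      rw [F1, F1, if_pos h, if_pos (by omega)]
      have : 10 * K - (i - 1) = (10 * K - i) + 1 := by omega
      rw [this, pow_succ]; ring
    have e3 : F1 K (10 * K) = 0 := by rw [F1, if_neg (lt_irrefl _)]
    rw [if_pos h, if_neg (show ¬ i = 10 * K by omega), inv2]
    have hb : (if 1 ≤ i then 1 / 2 * (1 / rr K) * (F1 K (i - 1) - F1 K i) else 0) ≤
        (1 / 8) * (1 / rr K) * F1 K i := by
      split_ifs with h1
      · rw [e2 h1]
        nlinarith
      · positivity
    by_cases c : i = 5 * K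
    · rw [if_pos c, if_pos c, e3]
      nlinarith [mul_nonneg h1.le hF, mul_nonneg hr0.le hF]
    · rw [if_neg c, if_neg c]
      nlinarith [mul_nonneg hr0.le hF]
  · subst h
    have e1 : F1 K (10 * K) = 0 := by rw [F1, if_neg (lt_irrefl _)]
    have e2 : F1 K (10 * K - 1) = 5 / 4 := by
      rw [F1, if_pos (by omega)]
      have : 10 * K - (10 * K - 1) = 1 := by omega
      rw [this, pow_one]
    have e3 : F1 K (5 * K) = (5 / 4) ^ (5 * K) := by
      rw [F1, if_pos (by omega)]
      congr 1; omega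
    have h3 := ee_bound K hK
    rw [if_neg (lt_irrefl _), if_pos (by omega), if_neg (by omega), if_pos rfl, e1, e2, e3, inv2]
    rw [inv4] at h3
    linarith

theorem LL_F2 (K : ℕ) (hK : 1 ≤ K) (i : ℕ) (hi : i ≤ 10 * K) :
    F2 K i + LL K (F2 K) i ≤ (9 / 10 + 1 / rr K) * F2 K i + 1 / rr K := by
  have hr := rr_ge K hK
  have hr0 : 0 < 1 / rr K := by have := rr_pos K; positivity
  have h1 := qq_pos K hK
  have h2 := qq_le K hK
  rw [LL, L_eq K _ i hi]
  have e3 : F2 K (10 * K) = 0 := by rw [F2, if_neg (by omega)]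
  rcases le_or_gt i (5 * K) with h | h
  · have hF := F2_nonneg K i
    have e1 : F2 K (i + 1) ≤ (4 / 5) * F2 K i := by
      rw [F2, F2, if_pos h]
      split_ifs with h'
      · have : 5 * K + 1 - i = (5 * K + 1 - (i + 1)) + 1 := by omega
        rw [this, pow_succ]
        have : (0 : ℝ) < (5 / 4) ^ (5 * K + 1 - (i + 1)) := by positivity
        linarith
      · positivity
    have e2 : 1 ≤ i → F2 K (i - 1) = (5 / 4) * F2 K i := by
      intro h1
      rw [F2, F2, if_pos h, if_pos (by omega)]
      have : 5 * K + 1 - (i - 1) = (5 * K + 1 - i) + 1 := by omega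
      rw [this, pow_succ]; ring
    rw [if_pos (show i < 10 * K by omega), if_neg (show ¬ i = 10 * K by omega), inv2]
    have hb : (if 1 ≤ i then 1 / 2 * (1 / rr K) * (F2 K (i - 1) - F2 K i) else 0) ≤
        (1 / 8) * (1 / rr K) * F2 K i := by
      split_ifs with h1
      · rw [e2 h1]
        nlinarith
      · positivity
    by_cases c : i = 5 * K
    · rw [if_pos c, if_pos c, e3]
      nlinarith [mul_nonneg h1.le hF, mul_nonneg hr0.le hF]
    · rw [if_neg c, if_neg c]
      nlinarith [mul_nonneg hr0.le hF]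
  · have e0 : F2 K i = 0 := by rw [F2, if_neg (by omega)]
    have e1 : F2 K (i + 1) = 0 := by rw [F2, if_neg (by omega)]
    have e2 : F2 K (i - 1) ≤ 5 / 4 := by
      rw [F2]
      split_ifs with h'
      · have : 5 * K + 1 - (i - 1) = 1 := by omega
        rw [this, pow_one]
      · norm_num
    have e2' := F2_nonneg K (i - 1)
    have e4 : F2 K (5 * K) = 5 / 4 := by
      rw [F2, if_pos le_rfl]
      have : 5 * K + 1 - 5 * K = 1 := by omega
      rw [this, pow_one]
    rw [if_neg (show ¬ i = 5 * K by omega), if_neg (show ¬ i = 5 * K by omega),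
      if_pos (show 1 ≤ i by omega), e0, e1, inv2]
    have h3 := ee_le K hK
    have h3' := ee_nonneg K hK
    rw [inv4] at h3
    split_ifs with c1 c2
    · omega
    · nlinarith
    · rw [e4]; nlinarith
    · nlinarith

theorem gg_nonneg (K : ℕ) (hK : 1 ≤ K) (i : ℕ) : 0 ≤ gg K i := by
  have := qq_pos K hK
  rw [gg]; split_ifs <;> linarith

theorem gg_le (K : ℕ) (hK : 1 ≤ K) (i : ℕ) : gg K i ≤ 1 := by
  have := qq_le K hK
  rw [gg]; split_ifs <;> linarith

/-- the splitting probability is nearly harmonic -/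
theorem LL_gg (K : ℕ) (hK : 1 ≤ K) (i : ℕ) (hi : i ≤ 10 * K) :
    LL K (gg K) i ≤ 1 / rr K ∧
    -(1 / rr K) - (if i = 10 * K - 1 then 1 / 2 else 0) ≤ LL K (gg K) i := by
  have hr := rr_ge K hK
  have hr0 : 0 < 1 / rr K := by have := rr_pos K; positivity
  have h1 := qq_pos K hK
  have h2 := qq_le K hK
  rw [LL, L_eq K _ i hi]
  have e3 : gg K (10 * K) = 0 := by rw [gg, if_neg (by omega), if_neg (by omega)]
  have e5 : gg K (5 * K) = qq K := by rw [gg, if_pos le_rfl]
  have g1 : ∀ j, j ≤ 5 * K → gg K j = qq K := fun j hj => by rw [gg, if_pos hj]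
  have g2 : ∀ j, 5 * K < j → j < 10 * K → gg K j = 1 := fun j hj hj' => by
    rw [gg, if_neg (by omega), if_pos hj']
  rw [inv2]
  rcases lt_trichotomy i (5 * K) with h | h | h
  · have c1 : i < 10 * K := by omega
    have c2 : ¬ i = 5 * K := by omega
    have c3 : ¬ i = 10 * K := by omega
    have c4 : ¬ i = 10 * K - 1 := by omega
    simp only [c1, c2, c3, c4, if_true, if_false]
    rw [g1 i h.le, g1 (i + 1) (by omega), g1 (i - 1) (by omega)]
    split_ifs <;> constructor <;> linarith
  · rw [if_pos (by omega), if_pos h, if_pos (by omega), if_pos h, if_neg (by omega),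
      if_neg (by omega), g1 i h.le, g2 (i + 1) (by omega) (by omega), g1 (i - 1) (by omega), e3]
    constructor <;> nlinarith
  · rcases hi.lt_or_eq with h' | h'
    · rw [if_pos h', if_neg (by omega), if_pos (by omega), if_neg (by omega), if_neg (by omega),
        g2 i h h']
      have b1 : qq K ≤ gg K (i - 1) := by
        rcases le_or_gt (i - 1) (5 * K) with c | c
        · rw [g1 _ c]
        · rw [g2 _ c (by omega)]; exact h2
      have b2 := gg_le K hK (i - 1)
      by_cases c : i = 10 * K - 1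
      · have : i + 1 = 10 * K := by omega
        rw [this, e3, if_pos c]
        constructor <;> nlinarith
      · rw [g2 (i + 1) (by omega) (by omega), if_neg c]
        constructor <;> nlinarith
    · rw [if_neg (by omega), if_pos (by omega), if_neg (by omega), if_pos h', if_neg (by omega),
        e5, h', e3, g2 (10 * K - 1) (by omega) (by omega)]
      have h3 := ee_le K hK
      have h3' := ee_nonneg K hK
      rw [inv4] at h3
      constructor <;> nlinarith

theorem G2_nonneg (K : ℕ) (hK : 1 ≤ K) (i : ℕ) : 0 ≤ G2 K i := by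
  have := gg_nonneg K hK i
  rw [G2]; positivity

theorem LL_G2 (K : ℕ) (hK : 1 ≤ K) (i : ℕ) (hi : i ≤ 10 * K) :
    G2 K i + LL K (G2 K) i ≤ (9 / 8) * G2 K i + (5 / 4) ^ K * (1 / rr K) -
      (if i = 10 * K - 1 then 1 / 2 else 0) := by
  have hr := rr_ge K hK
  have hr0 : 0 < 1 / rr K := by have := rr_pos K; positivity
  have h1 := qq_pos K hK
  have h2 := qq_le K hK
  rw [LL, L_eq K _ i hi]
  have g1 : ∀ j, j ≤ 5 * K → gg K j = qq K := fun j hj => by rw [gg, if_pos hj]
  have g2 : ∀ j, 5 * K < j → j < 10 * K → gg K j = 1 := fun j hj hj' => by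
    rw [gg, if_neg (by omega), if_pos hj']
  have e3 : gg K (10 * K) = 0 := by rw [gg, if_neg (by omega), if_neg (by omega)]
  have e3' : G2 K (10 * K) = 0 := by rw [G2, e3, zero_mul]
  set pw : ℕ → ℝ := fun j => (5 / 4 : ℝ) ^ j / (5 / 4) ^ (9 * K) with hpw
  have hpos : ∀ j, 0 < pw j := fun j => by rw [hpw]; positivity
  have hG : ∀ j, G2 K j = gg K j * pw j := fun j => rfl
  have hs : ∀ j, pw (j + 1) = (5 / 4) * pw j := fun j => by
    simp only [hpw]; rw [pow_succ]; ring
  have hs' : ∀ j, 1 ≤ j → pw j = (5 / 4) * pw (j - 1) := fun j hj => by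
    have := hs (j - 1)
    rwa [Nat.sub_add_cancel hj] at this
  have hK0 : (0 : ℝ) < (5 / 4) ^ K * (1 / rr K) := by positivity
  rw [inv2]
  have hback : 1 ≤ i → i < 10 * K → G2 K (i - 1) ≤ G2 K i := by
    intro c1 c2
    rw [hG, hG, hs' i c1]
    have hp := hpos (i - 1)
    rcases le_or_gt i (5 * K) with c | c
    · rw [g1 i c, g1 (i - 1) (by omega)]
      nlinarith [mul_pos h1 hp]
    · rw [g2 i c c2]
      have := gg_le K hK (i - 1)
      nlinarith
  have hGn := G2_nonneg K hK i
  rcases hi.lt_or_eq with h' | h'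
  · have hb : (if 1 ≤ i then 1 / 2 * (1 / rr K) * (G2 K (i - 1) - G2 K i) else 0) ≤ 0 := by
      split_ifs with c
      · have := hback c h'
        have h3 : 0 ≤ 1 / 2 * (1 / rr K) := by positivity
        nlinarith
      · exact le_rfl
    have c0 : ¬ i = 10 * K := by omega
    simp only [h', c0, if_true, if_false]
    set bk : ℝ := (if 1 ≤ i then 1 / 2 * (1 / rr K) * (G2 K (i - 1) - G2 K i) else 0) with hbk
    rcases lt_trichotomy i (5 * K) with h | h | h
    · have c2 : ¬ i = 5 * K := by omega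
      have c4 : ¬ i = 10 * K - 1 := by omega
      simp only [c2, c4, if_false]
      have : G2 K (i + 1) = (5 / 4) * G2 K i := by
        rw [hG, hG, g1 i h.le, g1 (i + 1) (by omega), hs]; ring
      rw [this]
      linarith
    · have c4 : ¬ i = 10 * K - 1 := by omega
      rw [if_pos h, if_pos h, if_neg c4, e3']
      have e1 : G2 K (i + 1) = (5 / 4) * pw i := by
        rw [hG, g2 (i + 1) (by omega) (by omega), hs]; ring
      have e2 : G2 K i = qq K * pw i := by rw [hG, g1 i h.le]
      rw [e1, e2]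
      have hp := hpos i
      nlinarith [mul_pos h1 hp]
    · have c2 : ¬ i = 5 * K := by omega
      simp only [c2, if_false]
      by_cases c : i = 10 * K - 1
      · have e0 : i + 1 = 10 * K := by omega
        rw [if_pos c, e0, e3']
        have e1 : 1 ≤ G2 K i := by
          rw [hG, g2 i h h', one_mul, hpw]
          simp only
          rw [le_div_iff₀ (by positivity), one_mul]
          exact pow_le_pow_right₀ (by norm_num) (by omega)
        linarith
      · rw [if_neg c]
        have : G2 K (i + 1) = (5 / 4) * G2 K i := by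
          rw [hG, hG, g2 i h h', g2 (i + 1) (by omega) (by omega), hs]; ring
        rw [this]
        linarith
  · rw [if_neg (by omega), if_pos (by omega), if_neg (by omega), if_pos h', if_neg (by omega),
      h', e3']
    have e1 : G2 K (10 * K - 1) ≤ (4 / 5) * (5 / 4) ^ K := by
      rw [hG, g2 (10 * K - 1) (by omega) (by omega), one_mul, hpw]
      simp only
      rw [div_le_iff₀ (by positivity), mul_assoc, ← pow_add]
      have : K + 9 * K = (10 * K - 1) + 1 := by omega
      rw [this, pow_succ]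
      linarith
    have e2 : G2 K (5 * K) ≤ 1 := by
      rw [hG, g1 (5 * K) le_rfl, hpw]
      simp only
      have : (5 / 4 : ℝ) ^ (5 * K) / (5 / 4) ^ (9 * K) ≤ 1 := by
        rw [div_le_one (by positivity)]
        exact pow_le_pow_right₀ (by norm_num) (by omega)
      have h3 : (0 : ℝ) ≤ (5 / 4 : ℝ) ^ (5 * K) / (5 / 4) ^ (9 * K) := by positivity
      nlinarith
    have e2' := G2_nonneg K hK (5 * K)
    have h3 := ee_le K hK
    have h3' := ee_nonneg K hK
    rw [inv4] at h3
    have e4 : (1 : ℝ) ≤ (5 / 4) ^ K := one_le_pow₀ (by norm_num)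
    have e5 : ee K * G2 K (5 * K) ≤ 1 / 4 * (1 / rr K) := by nlinarith
    have e6 : (1 / rr K) * G2 K (10 * K - 1) ≤ (1 / rr K) * ((4 / 5) * (5 / 4) ^ K) :=
      mul_le_mul_of_nonneg_left e1 hr0.le
    have e7 : (1 / rr K) ≤ (5 / 4) ^ K * (1 / rr K) := by nlinarith
    linarith

end

end Pool.Agent.H990R2.Ent
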