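import Pool.Agent.H990R2.Ent.Bounds

open Finset Filter Topology

namespace Pool.Agent.H990R2.Ent

open Pool.Agent.H990R2.CT

noncomputable section

/-! ### Dirichlet form comparison -/

section barta

variable {V : Type*} [Fintype V] [DecidableEq V]

theorem barta {Q : Matrix V V ℝ} {π : V → ℝ} (hπ : ∀ x, 0 ≤ π x)
    (hoff : ∀ x y, x ≠ y → 0 ≤ Q x y) (hrow : ∀ x, ∑ y, Q x y = 0)
    (hrev : ∀ x y, π x * Q x y = π y * Q y x) (z : V) (W : V → ℝ) (hz : W z = 0)
    (hW : ∀ x, x ≠ z → 0 < W x) (c : ℝ) (hc : ∀ x, x ≠ z → ∑ y, Q x y * W y ≤ -(c * W x))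
    (g : V → ℝ) (hg : g z = 0) :
    c * ∑ x, π x * g x ^ 2 ≤ (1 / 2) * ∑ x, ∑ y, π x * Q x y * (g x - g y) ^ 2 := by
  have h1 : ∀ x y, π x * Q x y * (g x ^ 2 * (1 - W y / W x) + g y ^ 2 * (1 - W x / W y)) ≤
      π x * Q x y * (g x - g y) ^ 2 := by
    intro x y
    by_cases hxy : x = y
    · subst hxy
      by_cases hxz : x = z
      · subst hxz; simp [hg]
      · have := (hW x hxz).ne'
        rw [div_self this]; simp
    · have h0 : 0 ≤ π x * Q x y := mul_nonneg (hπ x) (hoff x y hxy)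
      refine mul_le_mul_of_nonneg_left ?_ h0
      by_cases hxz : x = z
      · subst hxz
        rw [hg, hz]; simp
      · by_cases hyz : y = z
        · subst hyz
          rw [hg, hz]; simp
        · have hx := hW x hxz
          have hy := hW y hyz
          have key : 2 * g x * g y ≤ g x ^ 2 * (W y / W x) + g y ^ 2 * (W x / W y) := by
            have e1 : g x ^ 2 * (W y / W x) + g y ^ 2 * (W x / W y) - 2 * g x * g y =
                (g x * W y - g y * W x) ^ 2 / (W x * W y) := by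
              field_simp; ring
            have e2 : 0 ≤ (g x * W y - g y * W x) ^ 2 / (W x * W y) := by positivity
            linarith
          nlinarith
  have h2 : ∑ x, ∑ y, π x * Q x y * (g x ^ 2 * (1 - W y / W x) + g y ^ 2 * (1 - W x / W y)) =
      2 * ∑ x, ∑ y, π x * Q x y * (g x ^ 2 * (1 - W y / W x)) := by
    have e1 : ∑ x, ∑ y, π x * Q x y * (g y ^ 2 * (1 - W x / W y)) =
        ∑ x, ∑ y, π x * Q x y * (g x ^ 2 * (1 - W y / W x)) := by
      rw [Finset.sum_comm]
      refine Finset.sum_congr rfl fun x _ => Finset.sum_congr rfl fun y _ => ?_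
      rw [hrev y x]
    simp only [mul_add, Finset.sum_add_distrib]
    rw [e1]; ring
  have h3 : c * ∑ x, π x * g x ^ 2 ≤ ∑ x, ∑ y, π x * Q x y * (g x ^ 2 * (1 - W y / W x)) := by
    rw [Finset.mul_sum]
    refine Finset.sum_le_sum fun x _ => ?_
    by_cases hxz : x = z
    · subst hxz; simp [hg]
    · have hx := hW x hxz
      have e1 : ∑ y, π x * Q x y * (g x ^ 2 * (1 - W y / W x)) =
          π x * g x ^ 2 * ((∑ y, Q x y) - (∑ y, Q x y * W y) / W x) := by
        rw [Finset.sum_div, ← Finset.sum_sub_distrib, Finset.mul_sum]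
        refine Finset.sum_congr rfl fun y _ => ?_
        field_simp
      rw [e1, hrow, zero_sub]
      have e2 : c ≤ -((∑ y, Q x y * W y) / W x) := by
        rw [← neg_div, le_div_iff₀ hx]
        linarith [hc x hxz]
      have e3 : 0 ≤ π x * g x ^ 2 := mul_nonneg (hπ x) (sq_nonneg _)
      nlinarith
  have h4 := Finset.sum_le_sum fun x (_ : x ∈ (univ : Finset V)) =>
    Finset.sum_le_sum fun y (_ : y ∈ (univ : Finset V)) => h1 x y
  rw [h2] at h4
  linarith

omit [DecidableEq V] in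
/-- variance is at most the second moment about any point -/
theorem var_le {π : V → ℝ} (hπ1 : ∑ x, π x = 1) (f : V → ℝ) (a : ℝ) :
    ∑ x, π x * f x ^ 2 - (∑ x, π x * f x) ^ 2 ≤ ∑ x, π x * (f x - a) ^ 2 := by
  have h : ∑ x, π x * (f x - a) ^ 2 = ∑ x, π x * f x ^ 2 - 2 * a * ∑ x, π x * f x + a ^ 2 := by
    have : ∀ x, π x * (f x - a) ^ 2 = π x * f x ^ 2 - 2 * a * (π x * f x) + a ^ 2 * π x :=
      fun x => by ring
    simp only [this]
    rw [Finset.sum_add_distrib, Finset.sum_sub_distrib, ← Finset.mul_sum, ← Finset.mul_sum, hπ1]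
    ring
  rw [h]
  nlinarith [sq_nonneg (∑ x, π x * f x - a)]

end barta

/-! ### weights -/

def ZZ (K : ℕ) : ℝ := ∑ i : Fin (10 * K + 1), ww K i

def pp (K : ℕ) (i : Fin (10 * K + 1)) : ℝ := ww K i / ZZ K

theorem one_le_K2 (K : ℕ) (hK : 1 ≤ K) : (1 : ℝ) ≤ (K : ℝ) ^ 2 := by
  have : (1 : ℝ) ≤ K := by exact_mod_cast hK
  nlinarith

theorem one_le_rpow (K : ℕ) (hK : 1 ≤ K) (i : ℕ) : 1 ≤ rr K ^ i :=
  one_le_pow₀ (by linarith [rr_ge K hK])

theorem ww_ge (K : ℕ) (hK : 1 ≤ K) (i : ℕ) : 1 ≤ ww K i := by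
  have h1 := one_le_K2 K hK
  have h2 := one_le_rpow K hK i
  rw [ww]
  split_ifs
  · nlinarith
  · exact h2

theorem ww_last (K : ℕ) (hK : 1 ≤ K) : ww K (10 * K) = rr K ^ (10 * K) := by
  rw [ww, if_neg (by omega)]

theorem ZZ_ge (K : ℕ) (hK : 1 ≤ K) : rr K ^ (10 * K) ≤ ZZ K := by
  have h := Finset.single_le_sum (f := fun i : Fin (10 * K + 1) => ww K i)
    (fun i _ => by linarith [ww_ge K hK i]) (Finset.mem_univ (Fin.last (10 * K)))
  simp only [Fin.val_last] at h
  rw [ww_last K hK] at h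
  exact h

theorem ten_cube (K : ℕ) (hK : 1 ≤ K) : 10 * (K : ℝ) ^ 3 ≤ rr K := by
  rw [rr]
  induction K, hK using Nat.le_induction with
  | base => norm_num
  | succ K hK ih =>
    have h : (1 : ℝ) ≤ K := by exact_mod_cast hK
    push_cast
    have e : (16 : ℝ) ^ (K + 1) = 16 ^ K * 16 := pow_succ _ _
    have : ((K : ℝ) + 1) ^ 3 ≤ (2 * (K : ℝ)) ^ 3 := by gcongr; linarith
    have e3 : (2 * (K : ℝ)) ^ 3 = 8 * (K : ℝ) ^ 3 := by ring
    have h16 : (0 : ℝ) < 16 ^ K := by positivity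
    rw [e]
    linarith

theorem ww_le (K : ℕ) (hK : 1 ≤ K) (i m : ℕ) (hi : i ≤ m) : ww K i ≤ (K : ℝ) ^ 2 * rr K ^ m := by
  have h1 := one_le_K2 K hK
  have h2 : rr K ^ i ≤ rr K ^ m := pow_le_pow_right₀ (by linarith [rr_ge K hK]) hi
  have h3 := one_le_rpow K hK i
  rw [ww]
  split_ifs
  · gcongr
  · nlinarith

theorem ZZ_le (K : ℕ) (hK : 1 ≤ K) : ZZ K ≤ 2 * rr K ^ (10 * K) := by
  have hr := rr_pos K
  rw [ZZ, Fin.sum_univ_castSucc]
  simp only [Fin.val_last, Fin.val_castSucc]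
  rw [ww_last K hK]
  have h1 : ∑ i : Fin (10 * K), ww K i ≤ ∑ _i : Fin (10 * K), (K : ℝ) ^ 2 * rr K ^ (10 * K - 1) :=
    Finset.sum_le_sum fun i _ => ww_le K hK i (10 * K - 1) (by omega)
  rw [Finset.sum_const, Finset.card_univ, Fintype.card_fin, nsmul_eq_mul] at h1
  push_cast at h1
  have h2 : rr K ^ (10 * K) = rr K * rr K ^ (10 * K - 1) := by
    rw [← pow_succ']; congr 1; omega
  have h3 := ten_cube K hK
  have h4 : (10 * (K : ℝ)) * ((K : ℝ) ^ 2 * rr K ^ (10 * K - 1)) ≤ rr K ^ (10 * K) := by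
    rw [h2]
    have : (0 : ℝ) < rr K ^ (10 * K - 1) := by positivity
    nlinarith
  linarith

theorem ZZ_pos (K : ℕ) (hK : 1 ≤ K) : 0 < ZZ K :=
  lt_of_lt_of_le (pow_pos (rr_pos K) _) (ZZ_ge K hK)

theorem pp_pos (K : ℕ) (hK : 1 ≤ K) (i : Fin (10 * K + 1)) : 0 < pp K i := by
  have h1 := ww_ge K hK i
  have h2 := ZZ_pos K hK
  rw [pp]
  exact div_pos (by linarith) h2

theorem pp_sum (K : ℕ) (hK : 1 ≤ K) : ∑ i, pp K i = 1 := by
  simp only [pp]
  rw [← Finset.sum_div]
  exact div_self (ZZ_pos K hK).ne'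

theorem w_balance (K : ℕ) (hK : 1 ≤ K) (i j : ℕ) (hi : i ≤ 10 * K) (hj : j ≤ 10 * K) :
    ww K i * A K i j = ww K j * A K j i := by
  have hr := rr_pos K
  have hKp : (0 : ℝ) < K := by exact_mod_cast hK
  have e1 : ∀ i, ww K i * (if i = 5 * K then qq K / 2 else 1 / 2) =
      ww K (i + 1) * (1 / (2 * rr K)) := by
    intro i
    rw [ww, ww, qq]
    rcases lt_trichotomy i (5 * K) with h | h | h
    · rw [if_pos h.le, if_neg h.ne, if_pos (by omega)]
      have : rr K ^ (i + 1) = rr K ^ i * rr K := pow_succ _ _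
      rw [this]
      field_simp
    · rw [if_pos h.le, if_pos h, if_neg (by omega)]
      have : rr K ^ (i + 1) = rr K ^ i * rr K := pow_succ _ _
      rw [this]
      field_simp
    · rw [if_neg (by omega), if_neg (by omega), if_neg (by omega)]
      have : rr K ^ (i + 1) = rr K ^ i * rr K := pow_succ _ _
      rw [this]
      field_simp
  have e2 : ww K (5 * K) * ((1 - qq K) / 2) = ww K (10 * K) * ee K := by
    rw [ww, ww, if_pos le_rfl, if_neg (by omega), ee, qq]
    have : rr K ^ (10 * K) = rr K ^ (5 * K) * rr K ^ (5 * K) := by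
      rw [← pow_add]; congr 1; ring
    rw [this]
    field_simp
  rw [A, A]
  by_cases c1 : j = i + 1
  · have c2 : ¬ i = j + 1 := by omega
    have c3 : ¬ (i = 5 * K ∧ j = 10 * K) := by omega
    have c4 : ¬ (i = 10 * K ∧ j = 5 * K) := by omega
    have c5 : ¬ (j = 5 * K ∧ i = 10 * K) := by omega
    have c6 : ¬ (j = 10 * K ∧ i = 5 * K) := by omega
    rw [if_pos c1, if_neg c2, if_neg c3, if_neg c4, if_neg c2, if_pos c1, if_neg c5, if_neg c6, c1]
    have := e1 i
    linarith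
  · by_cases c2 : i = j + 1
    · have c3 : ¬ (i = 5 * K ∧ j = 10 * K) := by omega
      have c4 : ¬ (i = 10 * K ∧ j = 5 * K) := by omega
      have c5 : ¬ (j = 5 * K ∧ i = 10 * K) := by omega
      have c6 : ¬ (j = 10 * K ∧ i = 5 * K) := by omega
      rw [if_neg c1, if_pos c2, if_neg c3, if_neg c4, if_pos c2, if_neg c1, if_neg c5, if_neg c6,
        c2]
      have := e1 j
      linarith
    · rw [if_neg c1, if_neg c2, if_neg c2, if_neg c1]
      by_cases c3 : i = 5 * K ∧ j = 10 * K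
      · have c4 : ¬ (i = 10 * K ∧ j = 5 * K) := by omega
        have c5 : ¬ (j = 5 * K ∧ i = 10 * K) := by omega
        have c6 : (j = 10 * K ∧ i = 5 * K) := by omega
        rw [if_pos c3, if_neg c4, if_neg c5, if_pos c6, c3.1, c3.2]
        linarith
      · by_cases c4 : i = 10 * K ∧ j = 5 * K
        · have c5 : (j = 5 * K ∧ i = 10 * K) := by omega
          have c6 : ¬ (j = 10 * K ∧ i = 5 * K) := by omega
          rw [if_neg c3, if_pos c4, if_pos c5, if_neg c6, c4.1, c4.2]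
          linarith
        · have c5 : ¬ (j = 5 * K ∧ i = 10 * K) := by omega
          have c6 : ¬ (j = 10 * K ∧ i = 5 * K) := by omega
          rw [if_neg c3, if_neg c4, if_neg c5, if_neg c6]
          ring

theorem pp_rev (K : ℕ) (hK : 1 ≤ K) (i j : Fin (10 * K + 1)) :
    pp K i * QQ K i j = pp K j * QQ K j i := by
  by_cases h : i = j
  · rw [h]
  · have h' : ¬ j = i := fun h2 => h h2.symm
    rw [QQ, QQ, if_neg h, if_neg h', sub_zero, sub_zero, pp, pp]
    have := w_balance K hK i j (by omega) (by omega)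
    rw [div_mul_eq_mul_div, div_mul_eq_mul_div, this]

theorem pp_st (K : ℕ) (hK : 1 ≤ K) (j : Fin (10 * K + 1)) : ∑ i, pp K i * PP K i j = pp K j := by
  simp only [PP, Matrix.add_apply, mul_add]
  rw [Finset.sum_add_distrib]
  have h1 : ∑ i, pp K i * QQ K i j = 0 := by
    simp only [pp_rev K hK _ j]
    rw [← Finset.mul_sum, QQ_row, mul_zero]
  rw [h1, add_zero]
  simp [Matrix.one_apply]

theorem QQ_off (K : ℕ) (hK : 1 ≤ K) (i j : Fin (10 * K + 1)) (h : i ≠ j) : 0 ≤ QQ K i j := by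
  rw [QQ, if_neg h, sub_zero]
  exact A_nonneg K hK i j

theorem QQ_up (K : ℕ) (hK : 1 ≤ K) (i j : Fin (10 * K + 1)) (h : (j : ℕ) = i + 1) :
    0 < QQ K i j := by
  have hne : i ≠ j := by intro h2; rw [h2] at h; omega
  have hq := qq_pos K hK
  have hr := rr_pos K
  have c2 : ¬ ((i : ℕ) = j + 1) := by omega
  have c3 : ¬ ((i : ℕ) = 5 * K ∧ (j : ℕ) = 10 * K) := by omega
  have c4 : ¬ ((i : ℕ) = 10 * K ∧ (j : ℕ) = 5 * K) := by omega
  rw [QQ, if_neg hne, sub_zero, A, if_pos h, if_neg c2, if_neg c3, if_neg c4]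
  split_ifs <;> positivity

theorem QQ_down (K : ℕ) (hK : 1 ≤ K) (i j : Fin (10 * K + 1)) (h : (i : ℕ) = j + 1) :
    0 < QQ K i j := by
  have hne : i ≠ j := by intro h2; rw [h2] at h; omega
  have hr := rr_pos K
  have c2 : ¬ ((j : ℕ) = i + 1) := by omega
  have c3 : ¬ ((i : ℕ) = 5 * K ∧ (j : ℕ) = 10 * K) := by omega
  have c4 : ¬ ((i : ℕ) = 10 * K ∧ (j : ℕ) = 5 * K) := by omega
  rw [QQ, if_neg hne, sub_zero, A, if_neg c2, if_pos h, if_neg c3, if_neg c4]
  positivity

theorem irred (K : ℕ) (hK : 1 ≤ K) (i j : Fin (10 * K + 1)) :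
    Relation.ReflTransGen (fun a b => 0 < QQ K a b) i j := by
  have up : ∀ (n : ℕ) (i j : Fin (10 * K + 1)), (j : ℕ) = i + n →
      Relation.ReflTransGen (fun a b => 0 < QQ K a b) i j := by
    intro n
    induction n with
    | zero =>
      intro i j h
      have : i = j := Fin.ext (by omega)
      rw [this]
    | succ n ih =>
      intro i j h
      refine Relation.ReflTransGen.tail (ih i ⟨i + n, by omega⟩ rfl) ?_
      exact QQ_up K hK _ _ (by simp only; omega)
  have down : ∀ (n : ℕ) (i j : Fin (10 * K + 1)), (i : ℕ) = j + n →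
      Relation.ReflTransGen (fun a b => 0 < QQ K a b) i j := by
    intro n
    induction n with
    | zero =>
      intro i j h
      have : i = j := Fin.ext (by omega)
      rw [this]
    | succ n ih =>
      intro i j h
      refine Relation.ReflTransGen.tail (ih i ⟨j + 1, by omega⟩ (by simp only; omega)) ?_
      exact QQ_down K hK _ _ (by simp only)
  rcases le_total (i : ℕ) j with h | h
  · exact up (j - i) i j (by omega)
  · exact down (i - j) i j (by omega)

theorem gap_low (K : ℕ) (hK : 2 ≤ K) (f : Fin (10 * K + 1) → ℝ) :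
    (1 / 20 : ℝ) * (∑ x, pp K x * f x ^ 2 - (∑ x, pp K x * f x) ^ 2) ≤
      (1 / 2) * ∑ x, ∑ y, pp K x * QQ K x y * (f x - f y) ^ 2 := by
  have hK1 : 1 ≤ K := by omega
  have hr : 256 ≤ rr K := by
    rw [rr]
    calc (256 : ℝ) = 16 ^ 2 := by norm_num
      _ ≤ 16 ^ K := pow_le_pow_right₀ (by norm_num) hK
  have h := barta (Q := QQ K) (π := pp K) (fun x => (pp_pos K hK1 x).le) (QQ_off K hK1)
    (QQ_row K) (pp_rev K hK1) (Fin.last (10 * K)) (fun i => F1 K i)
    (by simp [F1])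
    (fun x hx => by
      have : (x : ℕ) < 10 * K := by
        have h3 : (x : ℕ) ≠ 10 * K := fun h => hx (Fin.ext h)
        omega
      simp only [F1]
      rw [if_pos this]; positivity) (1 / 20)
    (fun x hx => by
      have hx' : (x : ℕ) < 10 * K := by
        have h3 : (x : ℕ) ≠ 10 * K := fun h => hx (Fin.ext h)
        omega
      have h1 := P_F1 K hK1 x
      rw [PP, Matrix.add_mulVec, Matrix.one_mulVec] at h1
      simp only [Pi.add_apply] at h1
      have h2 : (QQ K).mulVec (fun j => F1 K j) x = ∑ y, QQ K x y * F1 K y := rfl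
      rw [h2] at h1
      have h3 : 1 ≤ F1 K x := by rw [F1, if_pos hx']; exact one_le_pow₀ (by norm_num)
      have h4 : 1 / rr K ≤ 1 / 256 := one_div_le_one_div_of_le (by norm_num) hr
      have h5 : 0 < 1 / rr K := by have := rr_pos K; positivity
      nlinarith)
    (fun x => f x - f (Fin.last (10 * K))) (by simp)
  have h2 := var_le (pp_sum K hK1) f (f (Fin.last (10 * K)))
  have h3 : ∀ x y, pp K x * QQ K x y * ((f x - f (Fin.last (10 * K))) -
      (f y - f (Fin.last (10 * K)))) ^ 2 = pp K x * QQ K x y * (f x - f y) ^ 2 := by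
    intro x y; ring
  simp only [h3] at h
  linarith

end

end Pool.Agent.H990R2.Ent
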